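import Mathlib

/-!
# Runs of the colouring procedure seen from one vertex, and the counting lemma
-/

namespace H115D

open Finset

set_option linter.unusedVariables false

/-- The history of the top-down colouring procedure on the path from the root of an
expression with three labels to the vertex `v`. -/
structure Run (c : ℕ) {V : Type} [DecidableEq V] (v : V) where
  m : ℕ
  s : ℕ → Finset V
  lab : ℕ → V → Fin 3
  S : ℕ → Fin 3 → Finset (Fin c)
  σ : ℕ → V → Option (Fin c)
  seen : ℕ → Finset V
  v_mem : ∀ p ≤ m, v ∈ s p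
  s_anti : ∀ p < m, s (p + 1) ⊆ s p
  ref : ∀ p < m, ∀ u ∈ s (p + 1), ∀ w ∈ s (p + 1),
    lab (p + 1) u = lab (p + 1) w → lab p u = lab p w
  S_mono : ∀ p < m, ∀ u ∈ s (p + 1), S p (lab p u) ⊆ S (p + 1) (lab (p + 1) u)
  σ_mono : ∀ p < m, ∀ u ∈ s (p + 1), ∀ γ, σ p u = some γ → σ (p + 1) u = some γ
  inj : ∀ p ≤ m, ∀ u ∈ s p, ∀ w ∈ s p, lab p u = lab p w →
    ∀ γ, σ p u = some γ → σ p w = some γ → u = w
  new : ∀ p < m, ∀ r ∈ s (p + 1), ∀ γ, σ p r = none → σ (p + 1) r = some γ →
    (∃ u₀ ∈ s p, lab p u₀ ≠ lab p r ∧ γ ∉ S p (lab p u₀) ∧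
      (∀ u ∈ s (p + 1), lab p u = lab p u₀ → γ ∈ S (p + 1) (lab (p + 1) u))) ∧
    (∀ q, p < q → q ≤ m → r ∈ s q →
      c < ((s q).filter (fun u => lab q u = lab q r)).card ∨
      ((s q).filter (fun u => lab p u = lab p r)).card ≤ 6 * c)
  seen_spec : ∀ p < m, ∀ r ∈ seen p, r ∈ s (p + 1) ∧
    (S (p + 1) (lab (p + 1) v) = univ ∨
      ((∃ γ, σ (p + 1) r = some γ ∧ γ ∈ S (p + 1) (lab (p + 1) v)) ∧
        ((s (p + 1)).filter (fun u => lab (p + 1) u = lab (p + 1) r)).card ≤ c))
  seen_class : ∀ p < m, ∀ r ∈ seen p, ∀ r' ∈ seen p, lab (p + 1) r = lab (p + 1) r'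
  seen_new : ∀ p < m, ∀ r ∈ seen p, ∀ γ, σ p r = none → σ (p + 1) r = some γ →
    γ ∉ S p (lab p v)

/-- for a sequence of propositions which is false at `a` and true at `b` there is a switch -/
theorem exists_switch (P : ℕ → Prop) {a b : ℕ} (hab : a ≤ b) (ha : ¬ P a) (hb : P b) :
    ∃ g, a ≤ g ∧ g < b ∧ ¬ P g ∧ P (g + 1) := by
  induction b, hab using Nat.le_induction with
  | base => exact absurd hb ha
  | succ n hn ih =>
    by_cases h : P n
    · obtain ⟨g, h1, h2, h3, h4⟩ := ih h
      exact ⟨g, h1, by omega, h3, h4⟩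
    · exact ⟨n, hn, by omega, h, hb⟩

namespace Run

variable {c : ℕ} {V : Type} [DecidableEq V] {v : V} (R : Run c v)

theorem mem_mono {p q : ℕ} (hpq : p ≤ q) (hq : q ≤ R.m) : R.s q ⊆ R.s p := by
  induction q, hpq using Nat.le_induction with
  | base => exact fun _ h => h
  | succ n hn ih => exact (R.s_anti n (by omega)).trans (ih (by omega))

theorem ref_mono {p q : ℕ} (hpq : p ≤ q) (hq : q ≤ R.m) :
    ∀ u ∈ R.s q, ∀ w ∈ R.s q, R.lab q u = R.lab q w → R.lab p u = R.lab p w := by
  induction q, hpq using Nat.le_induction with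
  | base => exact fun _ _ _ _ h => h
  | succ n hn ih =>
    intro u hu w hw h
    have hs := R.s_anti n (by omega)
    exact ih (by omega) u (hs hu) w (hs hw) (R.ref n (by omega) u hu w hw h)

theorem S_mono' {p q : ℕ} (hpq : p ≤ q) (hq : q ≤ R.m) :
    ∀ u ∈ R.s q, R.S p (R.lab p u) ⊆ R.S q (R.lab q u) := by
  induction q, hpq using Nat.le_induction with
  | base => exact fun _ _ _ h => h
  | succ n hn ih =>
    intro u hu
    exact (ih (by omega) u (R.s_anti n (by omega) hu)).trans (R.S_mono n (by omega) u hu)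

theorem σ_mono' {p q : ℕ} (hpq : p ≤ q) (hq : q ≤ R.m) :
    ∀ u ∈ R.s q, ∀ γ, R.σ p u = some γ → R.σ q u = some γ := by
  induction q, hpq using Nat.le_induction with
  | base => exact fun _ _ _ h => h
  | succ n hn ih =>
    intro u hu γ h
    exact R.σ_mono n (by omega) u hu γ (ih (by omega) u (R.s_anti n (by omega) hu) γ h)

theorem colored_card {q : ℕ} (hq : q ≤ R.m) :
    ((R.s q).filter (fun u => R.σ q u ≠ none)).card ≤ 3 * c := by
  classical
  have : ((R.s q).filter (fun u => R.σ q u ≠ none)).card ≤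
      (Finset.univ : Finset (Fin 3 × Fin c)).card := by
    have hex : ∀ u, R.σ q u ≠ none → ∃ γ, R.σ q u = some γ := by
      intro u hu
      exact Option.ne_none_iff_exists'.mp hu
    by_cases hc : Nonempty (Fin c)
    · obtain ⟨c0⟩ := hc
      apply Finset.card_le_card_of_injOn (fun u => (R.lab q u, (R.σ q u).getD c0))
      · intro u _; simp
      · intro u hu w hw h
        rw [Finset.mem_coe, Finset.mem_filter] at hu hw
        simp only [Prod.mk.injEq] at h
        obtain ⟨γ, hγ⟩ := hex u hu.2
        obtain ⟨δ, hδ⟩ := hex w hw.2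
        rw [hγ, hδ] at h
        simp only [Option.getD_some] at h
        obtain ⟨h1, h2⟩ := h
        subst h2
        exact R.inj q hq u hu.1 w hw.1 h1 γ hγ hδ
    · have : (R.s q).filter (fun u => R.σ q u ≠ none) = ∅ := by
        rw [Finset.filter_eq_empty_iff]
        intro u _ hu
        obtain ⟨γ, _⟩ := hex u hu
        exact hc ⟨γ⟩
      rw [this]; simp
  simpa using this

/-- a set of precoloured vertices `r` whose target class at the time `y r` of the request is
the class of one fixed vertex `w` -/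
theorem few (w : V) (T : Finset V) (y p : V → ℕ) (γ : V → Fin c)
    (hyp : ∀ r ∈ T, y r < p r) (hp : ∀ r ∈ T, p r < R.m)
    (hr : ∀ r ∈ T, r ∈ R.s (p r + 1))
    (h0 : ∀ r ∈ T, R.σ (y r) r = none) (h1 : ∀ r ∈ T, R.σ (y r + 1) r = some (γ r))
    (hc : ∀ r ∈ T, ((R.s (p r + 1)).filter
      (fun u => R.lab (p r + 1) u = R.lab (p r + 1) r)).card ≤ c)
    (hw : ∀ r ∈ T, w ∈ R.s (y r)) (hl : ∀ r ∈ T, R.lab (y r) r = R.lab (y r) w) :
    T.card ≤ 9 * c := by
  classical
  rcases T.eq_empty_or_nonempty with rfl | hT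
  · simp
  obtain ⟨r0, hr0, hmin⟩ := T.exists_min_image p hT
  have hy0 := hyp r0 hr0
  have hp0 := hp r0 hr0
  have hr0s := hr r0 hr0
  have hLA := (R.new (y r0) (by omega) r0 (R.mem_mono (by omega) (by omega) hr0s) (γ r0)
    (h0 r0 hr0) (h1 r0 hr0)).2 (p r0 + 1) (by omega) (by omega) hr0s
  have hD : ((R.s (p r0 + 1)).filter
      (fun u => R.lab (y r0) u = R.lab (y r0) r0)).card ≤ 6 * c := by
    rcases hLA with h | h
    · have := hc r0 hr0
      omega
    · exact h
  have hE := R.colored_card (q := p r0 + 1) (by omega)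
  have hsub : T ⊆ (R.s (p r0 + 1)).filter (fun u => R.σ (p r0 + 1) u ≠ none) ∪
      (R.s (p r0 + 1)).filter (fun u => R.lab (y r0) u = R.lab (y r0) r0) := by
    intro r hrT
    have hpr := hmin r hrT
    have hpm := hp r hrT
    have hyr := hyp r hrT
    have hrs : r ∈ R.s (p r0 + 1) := R.mem_mono (by omega) (by omega) (hr r hrT)
    rw [Finset.mem_union, Finset.mem_filter, Finset.mem_filter]
    by_cases hlt : y r + 1 ≤ p r0 + 1
    · left
      refine ⟨hrs, ?_⟩
      rw [R.σ_mono' hlt (by omega) r hrs (γ r) (h1 r hrT)]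
      simp
    · right
      refine ⟨hrs, ?_⟩
      have hry : r ∈ R.s (y r) := R.mem_mono (by omega) (by omega) (hr r hrT)
      have h2 := R.ref_mono (p := y r0) (q := y r) (by omega) (by omega) r hry w (hw r hrT)
        (hl r hrT)
      rw [h2, hl r0 hr0]
  calc T.card ≤ _ := Finset.card_le_card hsub
    _ ≤ _ := Finset.card_union_le _ _
    _ ≤ 3 * c + 6 * c := by omega
    _ = 9 * c := by ring

/-- a set of precoloured vertices whose request was made by the class of a fixed vertex `u`,
or more generally such that `u` gained the colour at the time of the request -/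
theorem few' (u : V) (T : Finset V) (y : V → ℕ) (γ : V → Fin c)
    (hy : ∀ r ∈ T, y r < R.m) (hr : ∀ r ∈ T, r ∈ R.s (y r + 1))
    (hu : ∀ r ∈ T, u ∈ R.s (y r + 1))
    (h1 : ∀ r ∈ T, R.σ (y r + 1) r = some (γ r))
    (hg0 : ∀ r ∈ T, γ r ∉ R.S (y r) (R.lab (y r) u))
    (hg1 : ∀ r ∈ T, γ r ∈ R.S (y r + 1) (R.lab (y r + 1) u)) :
    T.card ≤ 3 * c := by
  classical
  have : T.card ≤ (Finset.univ : Finset (Fin 3 × Fin c)).card := by
    apply Finset.card_le_card_of_injOn (fun r => (R.lab (y r + 1) r, γ r))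
    · intro r _; simp
    · intro r hrT r' hrT' h
      have hrT := Finset.mem_coe.mp hrT
      have hrT' := Finset.mem_coe.mp hrT'
      simp only [Prod.mk.injEq] at h
      obtain ⟨hl, hγ⟩ := h
      have hym := hy r hrT
      have hym' := hy r' hrT'
      have key : ∀ a ∈ T, ∀ b ∈ T, γ a = γ b → ¬ (y a < y b) := by
        intro a ha b hb hab hlt
        have hyb := hy b hb
        have hub := R.mem_mono (p := y b) (q := y b + 1) (by omega) (by omega) (hu b hb)
        have := R.S_mono' (p := y a + 1) (q := y b) (by omega) (by omega) u hub (hg1 a ha)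
        exact hg0 b hb (hab ▸ this)
      have heq : y r = y r' := by
        have k1 := key r hrT r' hrT' hγ
        have k2 := key r' hrT' r hrT hγ.symm
        omega
      have hr' : r' ∈ R.s (y r + 1) := by rw [heq]; exact hr r' hrT'
      have hs' : R.σ (y r + 1) r' = some (γ r) := by rw [heq, hγ]; exact h1 r' hrT'
      refine R.inj (y r + 1) (by omega) r (hr r hrT) r' hr' ?_ (γ r) (h1 r hrT) hs'
      rw [hl, heq]
  simpa using this

/-- **Counting lemma.** -/
theorem count (hσ0 : ∀ u ∈ R.s 0, R.σ 0 u = none)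
    (hend : R.S R.m (R.lab R.m v) ≠ univ) :
    ((Finset.range R.m).biUnion R.seen).card ≤ 13 * c + 15 * c * (c + 1) := by
  classical
  have hcpos : 0 < c := by
    rcases Nat.eq_zero_or_pos c with h | h
    · exfalso
      apply hend
      subst h
      ext x
      exact x.elim0
    · exact h
  have : Nonempty (Fin c) := ⟨⟨0, hcpos⟩⟩
  set N := (Finset.range R.m).biUnion R.seen with hN
  have hvm := R.v_mem
  -- final unsatisfied implies always unsatisfied
  have hne : ∀ p ≤ R.m, R.S p (R.lab p v) ≠ univ := by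
    intro p hp h
    have := R.S_mono' hp le_rfl v (hvm _ le_rfl)
    rw [h] at this
    exact hend (Finset.univ_subset_iff.mp this)
  -- choose the data
  have hdata : ∀ r ∈ N, ∃ p : ℕ, ∃ γ : Fin c, p < R.m ∧ r ∈ R.seen p ∧ r ∈ R.s (p + 1) ∧
      R.σ (p + 1) r = some γ ∧ γ ∈ R.S (p + 1) (R.lab (p + 1) v) ∧
      ((R.s (p + 1)).filter (fun u => R.lab (p + 1) u = R.lab (p + 1) r)).card ≤ c := by
    intro r hr
    rw [hN, Finset.mem_biUnion] at hr
    obtain ⟨p, hp, hrp⟩ := hr
    have hpm := Finset.mem_range.mp hp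
    obtain ⟨h1, h2⟩ := R.seen_spec p hpm r hrp
    rcases h2 with h2 | ⟨⟨γ, h3, h4⟩, h5⟩
    · exact absurd h2 (hne _ (by omega))
    · exact ⟨p, γ, hpm, hrp, h1, h3, h4, h5⟩
  choose! p γ hpm hps hrs hσ hγS hcard using hdata
  -- the four parts
  set A1 := N.filter (fun r => γ r ∉ R.S (p r) (R.lab (p r) v)) with hA1
  set N' := N.filter (fun r => γ r ∈ R.S (p r) (R.lab (p r) v)) with hN'
  have hsplit1 : N.card = A1.card + N'.card := by
    rw [hA1, hN', add_comm]
    exact (Finset.card_filter_add_card_filter_not (s := N)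
      (fun r => γ r ∈ R.S (p r) (R.lab (p r) v))).symm
  -- A1
  have hA1c : A1.card ≤ c := by
    have : A1.card ≤ (Finset.univ : Finset (Fin c)).card := by
      apply Finset.card_le_card_of_injOn γ
      · intro r _; simp
      · intro r hr r' hr' h
        rw [Finset.mem_coe, hA1, Finset.mem_filter] at hr hr'
        have hpr := hpm r hr.1
        have hpr' := hpm r' hr'.1
        have key : ∀ a ∈ N, ∀ b ∈ N, γ b ∉ R.S (p b) (R.lab (p b) v) → γ a = γ b →
            ¬ (p a < p b) := by
          intro a ha b hb hb2 hab hlt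
          have hpb := hpm b hb
          have := R.S_mono' (p := p a + 1) (q := p b) (by omega) (by omega) v
            (hvm _ (by omega)) (hγS a ha)
          exact hb2 (hab ▸ this)
        have heq : p r = p r' := by
          have k1 := key r hr.1 r' hr'.1 hr'.2 h
          have k2 := key r' hr'.1 r hr.1 hr.2 h.symm
          omega
        have hcl := R.seen_class (p r) hpr r (hps r hr.1) r' (by rw [heq]; exact hps r' hr'.1)
        exact R.inj (p r + 1) (by omega) r (hrs r hr.1) r' (by rw [heq]; exact hrs r' hr'.1) hcl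
          (γ r) (hσ r hr.1) (by rw [heq, h]; exact hσ r' hr'.1)
    simpa using this
  -- request times for N'
  have hdata2 : ∀ r ∈ N', ∃ y : ℕ, y < p r ∧ R.σ y r = none ∧ R.σ (y + 1) r = some (γ r) := by
    intro r hr
    rw [hN', Finset.mem_filter] at hr
    have hpr := hpm r hr.1
    have hrp1 := hrs r hr.1
    have hrp : r ∈ R.s (p r) := R.s_anti _ hpr hrp1
    -- coloured before step p r
    have hcol : R.σ (p r) r = some (γ r) := by
      by_contra hcon
      rcases h : R.σ (p r) r with _ | δ
      · exact R.seen_new (p r) hpr r (hps r hr.1) (γ r) h (hσ r hr.1) hr.2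
      · have := R.σ_mono (p r) hpr r hrp1 δ h
        rw [hσ r hr.1] at this
        rw [h] at hcon
        exact hcon this.symm
    have hstart : ¬ (R.σ 0 r = some (γ r)) := by
      rw [hσ0 r (R.mem_mono (by omega) (by omega) hrp)]; simp
    obtain ⟨y, _, hy2, hy3, hy4⟩ := exists_switch (fun q => R.σ q r = some (γ r))
      (Nat.zero_le (p r)) hstart hcol
    refine ⟨y, hy2, ?_, hy4⟩
    rcases h : R.σ y r with _ | δ
    · rfl
    · exfalso
      have h2 := R.σ_mono y (by omega) r (R.mem_mono (by omega) (by omega) hrp) δ h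
      rw [hy4] at h2
      apply hy3
      rw [h]; exact h2.symm
  choose! y hyp hy0 hy1 using hdata2
  set A2 := N'.filter (fun r => γ r ∉ R.S (y r) (R.lab (y r) v)) with hA2
  set N'' := N'.filter (fun r => γ r ∈ R.S (y r) (R.lab (y r) v)) with hN''
  have hsplit2 : N'.card = A2.card + N''.card := by
    rw [hA2, hN'', add_comm]
    exact (Finset.card_filter_add_card_filter_not (s := N')
      (fun r => γ r ∈ R.S (y r) (R.lab (y r) v))).symm
  have hN'N : ∀ r ∈ N', r ∈ N := fun r hr => (Finset.mem_filter.mp hr).1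
  -- A2
  have hA2c : A2.card ≤ 3 * c := by
    have hg : ∀ r ∈ A2, ∃ g, y r ≤ g ∧ g < p r ∧ γ r ∉ R.S g (R.lab g v) ∧
        γ r ∈ R.S (g + 1) (R.lab (g + 1) v) := by
      intro r hr
      rw [hA2, Finset.mem_filter] at hr
      have hr1 := hr.1
      rw [hN', Finset.mem_filter] at hr1
      exact exists_switch (fun q => γ r ∈ R.S q (R.lab q v)) (hyp r hr.1).le hr.2 hr1.2
    choose! g hg1 hg2 hg3 hg4 using hg
    refine R.few' v A2 g γ ?_ ?_ ?_ ?_ hg3 hg4
    · intro r hr
      have := hpm r (hN'N r (Finset.mem_filter.mp hr).1)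
      have := hg2 r hr
      omega
    · intro r hr
      have hrN := hN'N r (Finset.mem_filter.mp hr).1
      have := hpm r hrN
      have := hg2 r hr
      exact R.mem_mono (by omega) (by omega) (hrs r hrN)
    · intro r hr
      have hrN := hN'N r (Finset.mem_filter.mp hr).1
      have := hpm r hrN
      have := hg2 r hr
      exact hvm _ (by omega)
    · intro r hr
      have hrN' := (Finset.mem_filter.mp hr).1
      have hrN := hN'N r hrN'
      have := hpm r hrN
      have := hg2 r hr
      have := hg1 r hr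
      exact R.σ_mono' (p := y r + 1) (by omega) (by omega) r
        (R.mem_mono (by omega) (by omega) (hrs r hrN)) (γ r) (hy1 r hrN')
  -- A3 and A4
  set A3 := N''.filter (fun r => R.lab (y r) r = R.lab (y r) v) with hA3
  set A4 := N''.filter (fun r => ¬ (R.lab (y r) r = R.lab (y r) v)) with hA4
  have hsplit3 : N''.card = A3.card + A4.card := by
    rw [hA3, hA4]
    exact (Finset.card_filter_add_card_filter_not (s := N'')
      (fun r => R.lab (y r) r = R.lab (y r) v)).symm
  have hN''N' : ∀ r ∈ N'', r ∈ N' := fun r hr => (Finset.mem_filter.mp hr).1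
  have hA3c : A3.card ≤ 9 * c := by
    refine R.few v A3 y p γ ?_ ?_ ?_ ?_ ?_ ?_ ?_ ?_
    · exact fun r hr => hyp r (hN''N' r (Finset.mem_filter.mp hr).1)
    · exact fun r hr => hpm r (hN'N r (hN''N' r (Finset.mem_filter.mp hr).1))
    · exact fun r hr => hrs r (hN'N r (hN''N' r (Finset.mem_filter.mp hr).1))
    · exact fun r hr => hy0 r (hN''N' r (Finset.mem_filter.mp hr).1)
    · exact fun r hr => hy1 r (hN''N' r (Finset.mem_filter.mp hr).1)
    · exact fun r hr => hcard r (hN'N r (hN''N' r (Finset.mem_filter.mp hr).1))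
    · intro r hr
      have h1 := hyp r (hN''N' r (Finset.mem_filter.mp hr).1)
      have h2 := hpm r (hN'N r (hN''N' r (Finset.mem_filter.mp hr).1))
      exact hvm _ (by omega)
    · exact fun r hr => (Finset.mem_filter.mp hr).2
  have hA4c : A4.card ≤ 15 * c * (c + 1) := by
    have hcov : A4 ⊆ (Finset.range (c + 1)).biUnion
        (fun n => A4.filter (fun r => (R.S (y r) (R.lab (y r) v)).card = n)) := by
      intro r hr
      rw [Finset.mem_biUnion]
      refine ⟨(R.S (y r) (R.lab (y r) v)).card, ?_, ?_⟩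
      · rw [Finset.mem_range]
        have := Finset.card_le_univ (R.S (y r) (R.lab (y r) v))
        simp at this
        omega
      · rw [Finset.mem_filter]; exact ⟨hr, rfl⟩
    have hpart : ∀ n, (A4.filter (fun r => (R.S (y r) (R.lab (y r) v)).card = n)).card ≤
        15 * c := by
      intro n
      set B := A4.filter (fun r => (R.S (y r) (R.lab (y r) v)).card = n) with hB
      rcases B.eq_empty_or_nonempty with h | hBne
      · rw [h]; simp
      obtain ⟨rm, hrm, hmax⟩ := B.exists_max_image y hBne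
      have hBA : ∀ r ∈ B, r ∈ A4 := fun r hr => (Finset.mem_filter.mp hr).1
      have hBN'' : ∀ r ∈ B, r ∈ N'' := fun r hr => (Finset.mem_filter.mp (hBA r hr)).1
      have hBN' : ∀ r ∈ B, r ∈ N' := fun r hr => hN''N' r (hBN'' r hr)
      have hBN : ∀ r ∈ B, r ∈ N := fun r hr => hN'N r (hBN' r hr)
      have hym : ∀ r ∈ B, y r < p r := fun r hr => hyp r (hBN' r hr)
      have hpm' : ∀ r ∈ B, p r < R.m := fun r hr => hpm r (hBN r hr)
      have hrys : ∀ r ∈ B, r ∈ R.s (y r + 1) := by
        intro r hr
        have h1 := hym r hr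
        have h2 := hpm' r hr
        exact R.mem_mono (by omega) (by omega) (hrs r (hBN r hr))
      have h1m := hym rm hrm
      have h2m := hpm' rm hrm
      obtain ⟨⟨u0, hu0, hu0l, hu0S, _⟩, _⟩ := R.new (y rm) (by omega) rm (hrys rm hrm) (γ rm)
        (hy0 rm (hBN' rm hrm)) (hy1 rm (hBN' rm hrm))
      have hγm : γ rm ∈ R.S (y rm) (R.lab (y rm) v) := (Finset.mem_filter.mp (hBN'' rm hrm)).2
      -- three parts
      have hcov2 : B ⊆ (B.filter (fun r => y r = y rm)) ∪
          ((B.filter (fun r => y r < y rm ∧ R.lab (y r) r = R.lab (y r) u0)) ∪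
           (B.filter (fun r => y r < y rm ∧ γ r ∉ R.S (y r) (R.lab (y r) u0) ∧
              γ r ∈ R.S (y r + 1) (R.lab (y r + 1) u0)))) := by
        intro r hr
        have hle := hmax r hr
        rcases Nat.lt_or_ge (y r) (y rm) with hlt | hge
        swap
        · exact Finset.mem_union_left _ (Finset.mem_filter.mpr ⟨hr, by omega⟩)
        refine Finset.mem_union_right _ ?_
        have hyr := hym r hr
        have hpr := hpm' r hr
        have hu0' : u0 ∈ R.s (y r + 1) := R.mem_mono (by omega) (by omega) hu0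
        have hγr : γ r ∈ R.S (y r) (R.lab (y r) v) := (Finset.mem_filter.mp (hBN'' r hr)).2
        have hnr : ¬ (R.lab (y r) r = R.lab (y r) v) := (Finset.mem_filter.mp (hBA r hr)).2
        -- same S-value of v
        have hSeq : R.S (y r) (R.lab (y r) v) = R.S (y rm) (R.lab (y rm) v) := by
          apply Finset.eq_of_subset_of_card_le
          · exact R.S_mono' hlt.le (by omega) v (hvm _ (by omega))
          · have e1 := (Finset.mem_filter.mp hr).2
            have e2 := (Finset.mem_filter.mp hrm).2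
            rw [e1, e2]
        have hlv : R.lab (y r) u0 ≠ R.lab (y r) v := by
          intro h
          have h3 : R.S (y r) (R.lab (y r) u0) ⊆ R.S (y rm) (R.lab (y rm) u0) :=
            R.S_mono' hlt.le (by omega) u0 hu0
          rw [h, hSeq] at h3
          exact hu0S (h3 hγm)
        obtain ⟨⟨u1, hu1, hu1l, hu1S, hu1g⟩, _⟩ := R.new (y r) (by omega) r (hrys r hr) (γ r)
          (hy0 r (hBN' r hr)) (hy1 r (hBN' r hr))
        have hlv1 : R.lab (y r) u1 ≠ R.lab (y r) v := by
          intro h
          rw [h] at hu1S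
          exact hu1S hγr
        have hthree : ∀ a b c d : Fin 3, a ≠ b → c ≠ b → c ≠ a → d ≠ b → d = a ∨ d = c := by
          decide
        rcases hthree (R.lab (y r) r) (R.lab (y r) v) (R.lab (y r) u1) (R.lab (y r) u0)
          hnr hlv1 hu1l hlv with h | h
        · exact Finset.mem_union_left _ (Finset.mem_filter.mpr ⟨hr, hlt, h.symm⟩)
        · refine Finset.mem_union_right _ (Finset.mem_filter.mpr ⟨hr, hlt, ?_, hu1g u0 hu0' h⟩)
          rw [h]; exact hu1S
      have hc1 : (B.filter (fun r => y r = y rm)).card ≤ 3 * c := by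
        refine le_trans (Finset.card_le_card ?_) (R.colored_card (q := y rm + 1) (by omega))
        intro r hr
        rw [Finset.mem_filter] at hr ⊢
        have h1 := hrys r hr.1
        have h2 := hy1 r (hBN' r hr.1)
        rw [hr.2] at h1 h2
        exact ⟨h1, by rw [h2]; simp⟩
      have hc2 : (B.filter (fun r => y r < y rm ∧
          R.lab (y r) r = R.lab (y r) u0)).card ≤ 9 * c := by
        refine R.few u0 _ y p γ ?_ ?_ ?_ ?_ ?_ ?_ ?_ ?_
        · exact fun r hr => hym r (Finset.mem_filter.mp hr).1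
        · exact fun r hr => hpm' r (Finset.mem_filter.mp hr).1
        · exact fun r hr => hrs r (hBN r (Finset.mem_filter.mp hr).1)
        · exact fun r hr => hy0 r (hBN' r (Finset.mem_filter.mp hr).1)
        · exact fun r hr => hy1 r (hBN' r (Finset.mem_filter.mp hr).1)
        · exact fun r hr => hcard r (hBN r (Finset.mem_filter.mp hr).1)
        · intro r hr
          rw [Finset.mem_filter] at hr
          exact R.mem_mono (by omega) (by omega) hu0
        · exact fun r hr => (Finset.mem_filter.mp hr).2.2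
      have hc3 : (B.filter (fun r => y r < y rm ∧ γ r ∉ R.S (y r) (R.lab (y r) u0) ∧
              γ r ∈ R.S (y r + 1) (R.lab (y r + 1) u0))).card ≤ 3 * c := by
        refine R.few' u0 _ y γ ?_ ?_ ?_ ?_ ?_ ?_
        · intro r hr
          have h1 := hym r (Finset.mem_filter.mp hr).1
          have h2 := hpm' r (Finset.mem_filter.mp hr).1
          omega
        · exact fun r hr => hrys r (Finset.mem_filter.mp hr).1
        · intro r hr
          rw [Finset.mem_filter] at hr
          exact R.mem_mono (by omega) (by omega) hu0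
        · exact fun r hr => hy1 r (hBN' r (Finset.mem_filter.mp hr).1)
        · exact fun r hr => (Finset.mem_filter.mp hr).2.2.1
        · exact fun r hr => (Finset.mem_filter.mp hr).2.2.2
      have t1 := Finset.card_le_card hcov2
      have t2 := Finset.card_union_le (B.filter (fun r => y r = y rm))
        ((B.filter (fun r => y r < y rm ∧ R.lab (y r) r = R.lab (y r) u0)) ∪
           (B.filter (fun r => y r < y rm ∧ γ r ∉ R.S (y r) (R.lab (y r) u0) ∧
              γ r ∈ R.S (y r + 1) (R.lab (y r + 1) u0))))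
      have t3 := Finset.card_union_le
        (B.filter (fun r => y r < y rm ∧ R.lab (y r) r = R.lab (y r) u0))
        (B.filter (fun r => y r < y rm ∧ γ r ∉ R.S (y r) (R.lab (y r) u0) ∧
              γ r ∈ R.S (y r + 1) (R.lab (y r + 1) u0)))
      omega
    calc A4.card ≤ _ := Finset.card_le_card hcov
      _ ≤ ∑ n ∈ Finset.range (c + 1),
          (A4.filter (fun r => (R.S (y r) (R.lab (y r) v)).card = n)).card :=
        Finset.card_biUnion_le
      _ ≤ ∑ n ∈ Finset.range (c + 1), 15 * c := Finset.sum_le_sum (fun n _ => hpart n)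
      _ = 15 * c * (c + 1) := by simp; ring
  have : N.card ≤ c + (3 * c + (9 * c + 15 * c * (c + 1))) := by omega
  calc N.card ≤ c + (3 * c + (9 * c + 15 * c * (c + 1))) := this
    _ = 13 * c + 15 * c * (c + 1) := by ring

end Run

end H115D
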