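import Mathlib

/-!
# Clique-width expressions, domatic number, DOM-bounded classes
(definitions for MP_21a028_co)
-/

namespace H115D

open Finset

/-- `k`-expressions over a set `V` of vertex names: a single labelled vertex, the (disjoint)
union of two labelled graphs, the relabelling `i → j` of all vertices of label `i`, and the
operation joining every vertex of label `i` to every vertex of label `j`. -/
inductive Expr (k : ℕ) (V : Type) : Type
  | vertex (v : V) (i : Fin k) : Expr k V
  | union (a b : Expr k V) : Expr k V
  | relabel (i j : Fin k) (a : Expr k V) : Expr k V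
  | join (i j : Fin k) (a : Expr k V) : Expr k V

namespace Expr

variable {k : ℕ} {V : Type} [DecidableEq V]

/-- the vertices of the graph built by an expression -/
def verts : Expr k V → Finset V
  | vertex v _ => {v}
  | union a b => a.verts ∪ b.verts
  | relabel _ _ a => a.verts
  | join _ _ a => a.verts

/-- the labels of the vertices of the graph built by an expression -/
def lab : Expr k V → V → Fin k
  | vertex _ i => fun _ => i
  | union a b => fun u => if u ∈ a.verts then a.lab u else b.lab u
  | relabel i j a => fun u => if a.lab u = i then j else a.lab u
  | join _ _ a => a.lab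

/-- the edges of the graph built by an expression -/
def Adj : Expr k V → V → V → Prop
  | vertex _ _ => fun _ _ => False
  | union a b => fun u w => a.Adj u w ∨ b.Adj u w
  | relabel _ _ a => a.Adj
  | join i j a => fun u w => a.Adj u w ∨
      (u ∈ a.verts ∧ w ∈ a.verts ∧ ((a.lab u = i ∧ a.lab w = j) ∨ (a.lab u = j ∧ a.lab w = i)))

/-- an expression is valid if all its unions are disjoint unions and all its joins are
between two different labels -/
def Valid : Expr k V → Prop
  | vertex _ _ => True
  | union a b => a.Valid ∧ b.Valid ∧ Disjoint a.verts b.verts
  | relabel _ _ a => a.Valid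
  | join i j a => a.Valid ∧ i ≠ j

end Expr

/-- `G` has clique-width at most `k`: it is built by a valid `k`-expression. -/
def CliqueWidthLE (k : ℕ) {V : Type} [Fintype V] [DecidableEq V] (G : SimpleGraph V) : Prop :=
  ∃ e : Expr k V, e.Valid ∧ e.verts = univ ∧ ∀ u w, G.Adj u w ↔ e.Adj u w

/-- the set `X` is dominating: every vertex is in `X` or adjacent to a vertex of `X` -/
def Dominating {V : Type} (G : SimpleGraph V) (X : Set V) : Prop :=
  ∀ v, ∃ u ∈ X, u = v ∨ G.Adj u v

/-- The vertex set can be partitioned into `n` dominating sets. -/
def DomaticPartition {V : Type} (G : SimpleGraph V) (n : ℕ) : Prop :=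
  ∃ f : V → Fin n, ∀ i : Fin n, Dominating G {u | f u = i}

/-- the domatic number -/
noncomputable def domaticNumber {V : Type} (G : SimpleGraph V) : ℕ :=
  sSup {n | DomaticPartition G n}

/-- A class of finite graphs (given by a predicate) is DOM-bounded if for every `c` there is a
`d` such that every graph of the class of minimum degree at least `d` has domatic number
greater than `c`. -/
def DOMBounded (C : ∀ (V : Type) [Fintype V] [DecidableEq V], SimpleGraph V → Prop) : Prop :=
  ∀ c : ℕ, ∃ d : ℕ, ∀ (V : Type) [Fintype V] [DecidableEq V] (G : SimpleGraph V)
    [DecidableRel G.Adj], C V G → d ≤ G.minDegree → c < domaticNumber G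

end H115D
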