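import Mathlib
import Pool.Agent.H115D.Defs
import Pool.Agent.H115D.Count

/-!
# The colouring procedure for expressions with three labels
-/

namespace H115D

open Finset

set_option linter.unusedVariables false

namespace Expr

variable {k : ℕ} {V : Type} [DecidableEq V]

theorem Adj_mem : ∀ (e : Expr k V) {u w : V}, e.Adj u w → u ∈ e.verts ∧ w ∈ e.verts := by
  intro e
  induction e with
  | vertex v i => intro u w h; exact h.elim
  | union a b iha ihb =>
    intro u w h
    rcases h with h | h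
    · exact ⟨Finset.mem_union_left _ (iha h).1, Finset.mem_union_left _ (iha h).2⟩
    · exact ⟨Finset.mem_union_right _ (ihb h).1, Finset.mem_union_right _ (ihb h).2⟩
  | relabel i j a ih => intro u w h; exact ih h
  | join i j a ih =>
    intro u w h
    rcases h with h | h
    · exact ih h
    · exact ⟨h.1, h.2.1⟩

/-- the lookahead condition at one expression -/
def Cond (c : ℕ) (K : Finset V) (r : V) (e : Expr 3 V) : Prop :=
  c < (e.verts.filter (fun u => e.lab u = e.lab r)).card ∨ (e.verts ∩ K).card ≤ 6 * c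

/-- the lookahead condition for all subexpressions containing `r` -/
def LA (c : ℕ) (K : Finset V) (r : V) : Expr 3 V → Prop
  | vertex v i => Cond c K r (vertex v i)
  | union a b => Cond c K r (union a b) ∧ (r ∈ a.verts → LA c K r a) ∧
      (r ∈ b.verts → LA c K r b)
  | relabel i j a => Cond c K r (relabel i j a) ∧ LA c K r a
  | join i j a => Cond c K r (join i j a) ∧ LA c K r a

theorem LA_cond {c : ℕ} {K : Finset V} {r : V} : ∀ {e : Expr 3 V}, LA c K r e → Cond c K r e
  | vertex _ _, h => h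
  | union _ _, h => h.1
  | relabel _ _ _, h => h.1
  | join _ _ _, h => h.1

theorem LA_of_small {c : ℕ} {K : Finset V} {r : V} : ∀ (e : Expr 3 V),
    (e.verts ∩ K).card ≤ 6 * c → LA c K r e := by
  intro e
  induction e with
  | vertex v i => intro h; exact Or.inr h
  | union a b iha ihb =>
    intro h
    refine ⟨Or.inr h, fun _ => iha ?_, fun _ => ihb ?_⟩
    · refine le_trans (Finset.card_le_card ?_) h
      exact Finset.inter_subset_inter_right (Finset.subset_union_left)
    · refine le_trans (Finset.card_le_card ?_) h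
      exact Finset.inter_subset_inter_right (Finset.subset_union_right)
  | relabel i j a ih => intro h; exact ⟨Or.inr h, ih h⟩
  | join i j a ih => intro h; exact ⟨Or.inr h, ih h⟩

theorem pigeon {c : ℕ} {K Z : Finset V} (hZ : (K ∩ Z).card ≤ c) (e : Expr 3 V)
    (h : 3 * c < (e.verts ∩ K).card) :
    ∃ r ∈ e.verts ∩ K, r ∉ Z ∧
      c < ((e.verts ∩ K).filter (fun u => e.lab u = e.lab r)).card := by
  have h2 : (Finset.univ : Finset (Fin 3)).card * c < (e.verts ∩ K).card := by simpa using h
  obtain ⟨l, _, hl⟩ := Finset.exists_lt_card_fiber_of_mul_lt_card_of_maps_to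
    (s := e.verts ∩ K) (t := (Finset.univ : Finset (Fin 3))) (f := e.lab)
    (fun _ _ => Finset.mem_univ _) h2
  have h3 : ¬ ((e.verts ∩ K).filter (fun u => e.lab u = l) ⊆ K ∩ Z) := by
    intro hs
    have := Finset.card_le_card hs
    omega
  obtain ⟨r, hr, hrZ⟩ := Finset.not_subset.mp h3
  rw [Finset.mem_filter] at hr
  refine ⟨r, hr.1, ?_, ?_⟩
  · intro hz
    exact hrZ (Finset.mem_inter.mpr ⟨(Finset.mem_inter.mp hr.1).2, hz⟩)
  · rw [hr.2]; exact hl

theorem LA_exists_aux {c : ℕ} {K Z : Finset V} (hZ : (K ∩ Z).card ≤ c) : ∀ (e : Expr 3 V),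
    e.Valid → 3 * c < (e.verts ∩ K).card →
    ∃ r ∈ e.verts ∩ K, r ∉ Z ∧ LA c K r e ∧
      c < ((e.verts ∩ K).filter (fun u => e.lab u = e.lab r)).card := by
  have hcond : ∀ (e : Expr 3 V) (r : V),
      c < ((e.verts ∩ K).filter (fun u => e.lab u = e.lab r)).card → Cond c K r e := by
    intro e r h
    left
    refine lt_of_lt_of_le h (Finset.card_le_card ?_)
    exact Finset.filter_subset_filter _ Finset.inter_subset_left
  intro e
  induction e with
  | vertex v i =>
    intro _ h
    obtain ⟨r, hr, hrZ, hc⟩ := pigeon hZ (vertex v i) h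
    exact ⟨r, hr, hrZ, hcond _ _ hc, hc⟩
  | union a b iha ihb =>
    intro hv h
    by_cases h6 : ((union a b).verts ∩ K).card ≤ 6 * c
    · obtain ⟨r, hr, hrZ, hc⟩ := pigeon hZ (union a b) h
      exact ⟨r, hr, hrZ, LA_of_small _ h6, hc⟩
    · have hle : ((union a b).verts ∩ K).card ≤ (a.verts ∩ K).card + (b.verts ∩ K).card := by
        have : (union a b).verts ∩ K = (a.verts ∩ K) ∪ (b.verts ∩ K) := by
          show (a.verts ∪ b.verts) ∩ K = _
          exact Finset.union_inter_distrib_right _ _ _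
        rw [this]; exact Finset.card_union_le _ _
      have hor : 3 * c < (a.verts ∩ K).card ∨ 3 * c < (b.verts ∩ K).card := by omega
      rcases hor with h3 | h3
      · obtain ⟨r, hr, hrZ, hLA, hc⟩ := iha hv.1 h3
        have hra := (Finset.mem_inter.mp hr).1
        have hlab : (union a b).lab r = a.lab r := by simp [lab, hra]
        have hc' : c < (((union a b).verts ∩ K).filter
            (fun u => (union a b).lab u = (union a b).lab r)).card := by
          refine lt_of_lt_of_le hc (Finset.card_le_card ?_)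
          intro u hu
          rw [Finset.mem_filter, Finset.mem_inter] at hu ⊢
          refine ⟨⟨Finset.mem_union_left _ hu.1.1, hu.1.2⟩, ?_⟩
          rw [hlab]
          simpa [lab, hu.1.1] using hu.2
        refine ⟨r, Finset.mem_inter.mpr ⟨Finset.mem_union_left _ hra,
          (Finset.mem_inter.mp hr).2⟩, hrZ, ⟨hcond _ _ hc', fun _ => hLA, fun hb => ?_⟩, hc'⟩
        exact absurd hb (Finset.disjoint_left.mp hv.2.2 hra)
      · obtain ⟨r, hr, hrZ, hLA, hc⟩ := ihb hv.2.1 h3
        have hrb := (Finset.mem_inter.mp hr).1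
        have hra : r ∉ a.verts := fun h => Finset.disjoint_left.mp hv.2.2 h hrb
        have hlab : (union a b).lab r = b.lab r := by simp [lab, hra]
        have hc' : c < (((union a b).verts ∩ K).filter
            (fun u => (union a b).lab u = (union a b).lab r)).card := by
          refine lt_of_lt_of_le hc (Finset.card_le_card ?_)
          intro u hu
          rw [Finset.mem_filter, Finset.mem_inter] at hu ⊢
          have hua : u ∉ a.verts := fun h => Finset.disjoint_left.mp hv.2.2 h hu.1.1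
          refine ⟨⟨Finset.mem_union_right _ hu.1.1, hu.1.2⟩, ?_⟩
          rw [hlab]
          simpa [lab, hua] using hu.2
        refine ⟨r, Finset.mem_inter.mpr ⟨Finset.mem_union_right _ hrb,
          (Finset.mem_inter.mp hr).2⟩, hrZ, ⟨hcond _ _ hc', fun ha => absurd ha hra,
          fun _ => hLA⟩, hc'⟩
  | relabel i j a ih =>
    intro hv h
    by_cases h6 : ((relabel i j a).verts ∩ K).card ≤ 6 * c
    · obtain ⟨r, hr, hrZ, hc⟩ := pigeon hZ (relabel i j a) h
      exact ⟨r, hr, hrZ, LA_of_small _ h6, hc⟩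
    · obtain ⟨r, hr, hrZ, hLA, hc⟩ := ih hv h
      have hc' : c < (((relabel i j a).verts ∩ K).filter
            (fun u => (relabel i j a).lab u = (relabel i j a).lab r)).card := by
        refine lt_of_lt_of_le hc (Finset.card_le_card ?_)
        intro u hu
        rw [Finset.mem_filter] at hu ⊢
        refine ⟨hu.1, ?_⟩
        show (if a.lab u = i then j else a.lab u) = (if a.lab r = i then j else a.lab r)
        rw [hu.2]
      exact ⟨r, hr, hrZ, ⟨hcond _ _ hc', hLA⟩, hc'⟩
  | join i j a ih =>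
    intro hv h
    by_cases h6 : ((join i j a).verts ∩ K).card ≤ 6 * c
    · obtain ⟨r, hr, hrZ, hc⟩ := pigeon hZ (join i j a) h
      exact ⟨r, hr, hrZ, LA_of_small _ h6, hc⟩
    · obtain ⟨r, hr, hrZ, hLA, hc⟩ := ih hv.1 h
      exact ⟨r, hr, hrZ, ⟨hcond _ _ hc, hLA⟩, hc⟩

theorem LA_exists {c : ℕ} {K Z : Finset V} (hZ : (K ∩ Z).card ≤ c) (e : Expr 3 V)
    (hv : e.Valid) (hK : K ⊆ e.verts) (hne : ∃ r ∈ K, r ∉ Z) :
    ∃ r ∈ K, r ∉ Z ∧ LA c K r e := by
  by_cases h6 : (e.verts ∩ K).card ≤ 6 * c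
  · obtain ⟨r, hr, hrZ⟩ := hne
    exact ⟨r, hr, hrZ, LA_of_small _ h6⟩
  · obtain ⟨r, hr, hrZ, hLA, _⟩ := LA_exists_aux hZ e hv (by omega)
    exact ⟨r, (Finset.mem_inter.mp hr).2, hrZ, hLA⟩

omit [DecidableEq V] in
/-- a set with an injective partial colouring has at most `c` coloured elements -/
theorem colored_le {c : ℕ} {K : Finset V} {σ : V → Option (Fin c)}
    (hinj : ∀ u ∈ K, ∀ w ∈ K, ∀ γ, σ u = some γ → σ w = some γ → u = w)
    (T : Finset V) (hT : T ⊆ K) (hcol : ∀ u ∈ T, σ u ≠ none) : T.card ≤ c := by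
  classical
  have hex : ∀ u ∈ T, ∃ γ, σ u = some γ := fun u hu => Option.ne_none_iff_exists'.mp (hcol u hu)
  rcases T.eq_empty_or_nonempty with rfl | ⟨t, ht⟩
  · simp
  obtain ⟨γ0, _⟩ := hex t ht
  have : Nonempty (Fin c) := ⟨γ0⟩
  choose! g hg using hex
  have : T.card ≤ (Finset.univ : Finset (Fin c)).card := by
    apply Finset.card_le_card_of_injOn g
    · intro r _; simp
    · intro r hr r' hr' h
      exact hinj r (hT hr) r' (hT hr') (g r) (hg r hr) (by rw [h]; exact hg r' hr')
  simpa using this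

/-- **The requests of one class.** -/
theorem request {c : ℕ} (e : Expr 3 V) (hv : e.Valid) (K : Finset V) (hK : K ⊆ e.verts)
    (S0 : Finset (Fin c)) : ∀ (n : ℕ) (σ : V → Option (Fin c)),
    (Finset.univ.filter (fun γ => γ ∉ S0 ∧ ∀ r ∈ K, σ r ≠ some γ)).card ≤ n →
    (∀ u ∈ K, ∀ w ∈ K, ∀ γ, σ u = some γ → σ w = some γ → u = w) →
    ∃ σ' : V → Option (Fin c), (∀ u, u ∉ K → σ' u = σ u) ∧
      (∀ u γ, σ u = some γ → σ' u = some γ) ∧
      (∀ u ∈ K, ∀ w ∈ K, ∀ γ, σ' u = some γ → σ' w = some γ → u = w) ∧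
      (∀ r ∈ K, ∀ γ, σ r = none → σ' r = some γ → γ ∉ S0 ∧ LA c K r e) ∧
      ((∀ r ∈ K, σ' r ≠ none) ∨ (∀ γ, γ ∈ S0 ∨ ∃ r ∈ K, σ' r = some γ)) := by
  classical
  intro n
  induction n with
  | zero =>
    intro σ hn hinj
    refine ⟨σ, fun _ _ => rfl, fun _ _ h => h, hinj, fun r _ γ h1 h2 => ?_, Or.inr ?_⟩
    · rw [h1] at h2; cases h2
    · intro γ
      by_contra hcon
      push Not at hcon
      have : γ ∈ Finset.univ.filter (fun γ => γ ∉ S0 ∧ ∀ r ∈ K, σ r ≠ some γ) := by
        rw [Finset.mem_filter]; exact ⟨Finset.mem_univ _, hcon.1, hcon.2⟩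
      have := Finset.card_pos.mpr ⟨γ, this⟩
      omega
  | succ n ih =>
    intro σ hn hinj
    by_cases hall : ∀ r ∈ K, σ r ≠ none
    · refine ⟨σ, fun _ _ => rfl, fun _ _ h => h, hinj, fun r _ γ h1 h2 => ?_, Or.inl hall⟩
      rw [h1] at h2; cases h2
    by_cases hmis : ∀ γ, γ ∈ S0 ∨ ∃ r ∈ K, σ r = some γ
    · refine ⟨σ, fun _ _ => rfl, fun _ _ h => h, hinj, fun r _ γ h1 h2 => ?_, Or.inr hmis⟩
      rw [h1] at h2; cases h2
    push Not at hmis hall
    obtain ⟨γ, hγS, hγK⟩ := hmis
    obtain ⟨r1, hr1K, hr1⟩ := hall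
    have hZ : (K ∩ K.filter (fun u => σ u ≠ none)).card ≤ c := by
      apply colored_le hinj _ Finset.inter_subset_left
      intro u hu
      exact (Finset.mem_filter.mp (Finset.mem_inter.mp hu).2).2
    obtain ⟨r, hrK, hrZ, hrLA⟩ := LA_exists hZ e hv hK
      ⟨r1, hr1K, fun h => (Finset.mem_filter.mp h).2 hr1⟩
    have hrnone : σ r = none := by
      by_contra h
      exact hrZ (Finset.mem_filter.mpr ⟨hrK, h⟩)
    set σ1 : V → Option (Fin c) := Function.update σ r (some γ) with hσ1
    have h1r : σ1 r = some γ := by simp [hσ1]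
    have h1o : ∀ u, u ≠ r → σ1 u = σ u := fun u hu => by simp [hσ1, hu]
    have hext1 : ∀ u δ, σ u = some δ → σ1 u = some δ := by
      intro u δ h
      have : u ≠ r := by rintro rfl; rw [hrnone] at h; cases h
      rw [h1o u this]; exact h
    have hinj1 : ∀ u ∈ K, ∀ w ∈ K, ∀ γ, σ1 u = some γ → σ1 w = some γ → u = w := by
      intro u hu w hw δ h1 h2
      by_cases hur : u = r
      · by_cases hwr : w = r
        · rw [hur, hwr]
        · exfalso
          rw [hur, h1r] at h1
          rw [h1o w hwr] at h2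
          cases h1
          exact hγK w hw h2
      · by_cases hwr : w = r
        · exfalso
          rw [hwr, h1r] at h2
          rw [h1o u hur] at h1
          cases h2
          exact hγK u hu h1
        · rw [h1o u hur] at h1
          rw [h1o w hwr] at h2
          exact hinj u hu w hw δ h1 h2
    have hlt : (Finset.univ.filter (fun γ => γ ∉ S0 ∧ ∀ r ∈ K, σ1 r ≠ some γ)).card ≤ n := by
      have hss : Finset.univ.filter (fun γ => γ ∉ S0 ∧ ∀ r ∈ K, σ1 r ≠ some γ) ⊂
          Finset.univ.filter (fun γ => γ ∉ S0 ∧ ∀ r ∈ K, σ r ≠ some γ) := by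
        rw [Finset.ssubset_iff_of_subset]
        · refine ⟨γ, ?_, ?_⟩
          · rw [Finset.mem_filter]; exact ⟨Finset.mem_univ _, hγS, hγK⟩
          · rw [Finset.mem_filter]
            intro h
            exact h.2.2 r hrK h1r
        · intro δ hδ
          rw [Finset.mem_filter] at hδ ⊢
          refine ⟨hδ.1, hδ.2.1, fun u hu h => hδ.2.2 u hu (hext1 u δ h)⟩
      have := Finset.card_lt_card hss
      omega
    obtain ⟨σ', h1, h2, h3, h4, h5⟩ := ih σ1 hlt hinj1
    refine ⟨σ', ?_, ?_, h3, ?_, h5⟩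
    · intro u hu
      rw [h1 u hu, h1o u (by rintro rfl; exact hu hrK)]
    · intro u δ h
      exact h2 u δ (hext1 u δ h)
    · intro u hu δ hn1 hs
      by_cases hur : u = r
      · subst hur
        have := h2 u γ h1r
        rw [this] at hs
        cases hs
        exact ⟨hγS, hrLA⟩
      · exact h4 u hu δ (by rw [h1o u hur]; exact hn1) hs

end Expr

/-- prepend a state to a run -/
def Run.cons {c : ℕ} {V : Type} [DecidableEq V] {v : V} (R : Run c v)
    (s0 : Finset V) (lab0 : V → Fin 3) (S0 : Fin 3 → Finset (Fin c)) (σ0 : V → Option (Fin c))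
    (seen0 : Finset V)
    (hv : v ∈ s0) (hs : R.s 0 ⊆ s0)
    (href : ∀ u ∈ R.s 0, ∀ w ∈ R.s 0, R.lab 0 u = R.lab 0 w → lab0 u = lab0 w)
    (hS : ∀ u ∈ R.s 0, S0 (lab0 u) ⊆ R.S 0 (R.lab 0 u))
    (hσ : ∀ u ∈ R.s 0, ∀ γ, σ0 u = some γ → R.σ 0 u = some γ)
    (hinj : ∀ u ∈ s0, ∀ w ∈ s0, lab0 u = lab0 w →
      ∀ γ, σ0 u = some γ → σ0 w = some γ → u = w)
    (hnew : ∀ r ∈ R.s 0, ∀ γ, σ0 r = none → R.σ 0 r = some γ →
      (∃ u₀ ∈ s0, lab0 u₀ ≠ lab0 r ∧ γ ∉ S0 (lab0 u₀) ∧
        (∀ u ∈ R.s 0, lab0 u = lab0 u₀ → γ ∈ R.S 0 (R.lab 0 u))) ∧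
      (∀ q ≤ R.m, r ∈ R.s q →
        c < ((R.s q).filter (fun u => R.lab q u = R.lab q r)).card ∨
        ((R.s q).filter (fun u => lab0 u = lab0 r)).card ≤ 6 * c))
    (hseen : ∀ r ∈ seen0, r ∈ R.s 0 ∧
      (R.S 0 (R.lab 0 v) = univ ∨ ((∃ γ, R.σ 0 r = some γ ∧ γ ∈ R.S 0 (R.lab 0 v)) ∧
        ((R.s 0).filter (fun u => R.lab 0 u = R.lab 0 r)).card ≤ c)))
    (hclass : ∀ r ∈ seen0, ∀ r' ∈ seen0, R.lab 0 r = R.lab 0 r')
    (hseennew : ∀ r ∈ seen0, ∀ γ, σ0 r = none → R.σ 0 r = some γ → γ ∉ S0 (lab0 v)) :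
    Run c v where
  m := R.m + 1
  s := fun p => Nat.casesOn p s0 R.s
  lab := fun p => Nat.casesOn p lab0 R.lab
  S := fun p => Nat.casesOn p S0 R.S
  σ := fun p => Nat.casesOn p σ0 R.σ
  seen := fun p => Nat.casesOn p seen0 R.seen
  v_mem := by
    intro p hp
    cases p with
    | zero => exact hv
    | succ p => exact R.v_mem p (by omega)
  s_anti := by
    intro p hp
    cases p with
    | zero => exact hs
    | succ p => exact R.s_anti p (by omega)
  ref := by
    intro p hp
    cases p with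
    | zero => exact href
    | succ p => exact R.ref p (by omega)
  S_mono := by
    intro p hp
    cases p with
    | zero => exact hS
    | succ p => exact R.S_mono p (by omega)
  σ_mono := by
    intro p hp
    cases p with
    | zero => exact hσ
    | succ p => exact R.σ_mono p (by omega)
  inj := by
    intro p hp
    cases p with
    | zero => exact hinj
    | succ p => exact R.inj p (by omega)
  new := by
    intro p hp
    cases p with
    | zero =>
      intro r hr γ h1 h2
      obtain ⟨h3, h4⟩ := hnew r hr γ h1 h2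
      refine ⟨h3, ?_⟩
      intro q hq1 hq2 hrq
      cases q with
      | zero => omega
      | succ q => exact h4 q (by omega) hrq
    | succ p =>
      intro r hr γ h1 h2
      obtain ⟨h3, h4⟩ := R.new p (by omega) r hr γ h1 h2
      refine ⟨h3, ?_⟩
      intro q hq1 hq2 hrq
      cases q with
      | zero => omega
      | succ q => exact h4 q (by omega) (by omega) hrq
  seen_spec := by
    intro p hp
    cases p with
    | zero => exact hseen
    | succ p => exact R.seen_spec p (by omega)
  seen_class := by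
    intro p hp
    cases p with
    | zero => exact hclass
    | succ p => exact R.seen_class p (by omega)
  seen_new := by
    intro p hp
    cases p with
    | zero => exact hseennew
    | succ p => exact R.seen_new p (by omega)

end H115D
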