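import Mathlib
import Pool.Agent.H115D.Defs

/-!
# Graphs of clique-width at most four are not DOM-bounded
-/

namespace H115D

open Finset

namespace Expr

variable {k : ℕ} {V W : Type} [DecidableEq V] [DecidableEq W]

/-- renaming the vertices of an expression -/
def map (f : V → W) : Expr k V → Expr k W
  | vertex v i => vertex (f v) i
  | union a b => union (a.map f) (b.map f)
  | relabel i j a => relabel i j (a.map f)
  | join i j a => join i j (a.map f)

theorem verts_map (f : V → W) : ∀ e : Expr k V, (e.map f).verts = e.verts.image f := by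
  intro e
  induction e with
  | vertex v i => simp [map, verts]
  | union a b iha ihb => simp [map, verts, iha, ihb, Finset.image_union]
  | relabel i j a iha => simpa [map, verts] using iha
  | join i j a iha => simpa [map, verts] using iha

theorem mem_verts_map {f : V → W} (hf : Function.Injective f) (e : Expr k V) (u : V) :
    f u ∈ (e.map f).verts ↔ u ∈ e.verts := by
  rw [verts_map]
  exact hf.mem_finset_image

theorem lab_map {f : V → W} (hf : Function.Injective f) :
    ∀ (e : Expr k V) (u : V), (e.map f).lab (f u) = e.lab u := by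
  intro e
  induction e with
  | vertex v i => intro u; rfl
  | union a b iha ihb =>
    intro u
    simp only [map, lab, mem_verts_map hf, iha, ihb]
  | relabel i j a iha =>
    intro u
    simp only [map, lab, iha]
  | join i j a iha =>
    intro u
    simp only [map, lab, iha]

theorem Adj_map {f : V → W} (hf : Function.Injective f) :
    ∀ (e : Expr k V) (u w : V), (e.map f).Adj (f u) (f w) ↔ e.Adj u w := by
  intro e
  induction e with
  | vertex v i => intro u w; exact Iff.rfl
  | union a b iha ihb =>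
    intro u w
    simp only [map, Adj, iha, ihb]
  | relabel i j a iha =>
    intro u w
    simp only [map, Adj, iha]
  | join i j a iha =>
    intro u w
    simp only [map, Adj, iha, mem_verts_map hf, lab_map hf]

theorem Valid_map {f : V → W} (hf : Function.Injective f) :
    ∀ (e : Expr k V), e.Valid → (e.map f).Valid := by
  intro e
  induction e with
  | vertex v i => intro _; trivial
  | union a b iha ihb =>
    rintro ⟨ha, hb, hd⟩
    refine ⟨iha ha, ihb hb, ?_⟩
    rw [verts_map, verts_map]
    exact (Finset.disjoint_image hf).mpr hd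
  | relabel i j a iha => exact iha
  | join i j a iha =>
    rintro ⟨ha, hij⟩
    exact ⟨iha ha, hij⟩

theorem Adj_verts : ∀ (e : Expr k V) {u w : V}, e.Adj u w → u ∈ e.verts ∧ w ∈ e.verts := by
  intro e
  induction e with
  | vertex v i => intro u w h; exact h.elim
  | union a b iha ihb =>
    intro u w h
    rcases h with h | h
    · exact ⟨Finset.mem_union_left _ (iha h).1, Finset.mem_union_left _ (iha h).2⟩
    · exact ⟨Finset.mem_union_right _ (ihb h).1, Finset.mem_union_right _ (ihb h).2⟩
  | relabel i j a iha => intro u w h; exact iha h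
  | join i j a iha =>
    intro u w h
    rcases h with h | h
    · exact iha h
    · exact ⟨h.1, h.2.1⟩

theorem Adj_symm : ∀ (e : Expr k V) {u w : V}, e.Adj u w → e.Adj w u := by
  intro e
  induction e with
  | vertex v i => intro u w h; exact h.elim
  | union a b iha ihb =>
    intro u w h
    rcases h with h | h
    · exact Or.inl (iha h)
    · exact Or.inr (ihb h)
  | relabel i j a iha => intro u w h; exact iha h
  | join i j a iha =>
    intro u w h
    rcases h with h | ⟨h1, h2, h3 | h3⟩
    · exact Or.inl (iha h)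
    · exact Or.inr ⟨h2, h1, Or.inr ⟨h3.2, h3.1⟩⟩
    · exact Or.inr ⟨h2, h1, Or.inl ⟨h3.2, h3.1⟩⟩

theorem Adj_irrefl : ∀ (e : Expr k V), e.Valid → ∀ u, ¬ e.Adj u u := by
  intro e
  induction e with
  | vertex v i => intro _ u h; exact h.elim
  | union a b iha ihb =>
    intro hv u h
    rcases h with h | h
    · exact iha hv.1 u h
    · exact ihb hv.2.1 u h
  | relabel i j a iha => intro hv u h; exact iha hv u h
  | join i j a iha =>
    intro hv u h
    rcases h with h | ⟨h1, h2, h3 | h3⟩
    · exact iha hv.1 u h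
    · exact hv.2 (h3.1.symm.trans h3.2)
    · exact hv.2 (h3.2.symm.trans h3.1)

/-- changing the set of labels -/
def mapLab {k' : ℕ} (g : Fin k → Fin k') : Expr k V → Expr k' V
  | vertex v i => vertex v (g i)
  | union a b => union (a.mapLab g) (b.mapLab g)
  | relabel i j a => relabel (g i) (g j) (a.mapLab g)
  | join i j a => join (g i) (g j) (a.mapLab g)

theorem verts_mapLab {k' : ℕ} (g : Fin k → Fin k') :
    ∀ e : Expr k V, (e.mapLab g).verts = e.verts := by
  intro e
  induction e with
  | vertex v i => rfl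
  | union a b iha ihb => simp only [mapLab, verts, iha, ihb]
  | relabel i j a iha => simpa only [mapLab, verts] using iha
  | join i j a iha => simpa only [mapLab, verts] using iha

theorem lab_mapLab {k' : ℕ} {g : Fin k → Fin k'} (hg : Function.Injective g) :
    ∀ (e : Expr k V) (u : V), (e.mapLab g).lab u = g (e.lab u) := by
  intro e
  induction e with
  | vertex v i => intro u; rfl
  | union a b iha ihb =>
    intro u
    simp only [mapLab, lab, verts_mapLab, iha, ihb]
    split_ifs <;> rfl
  | relabel i j a iha =>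
    intro u
    simp only [mapLab, lab, iha, hg.eq_iff]
    split_ifs <;> rfl
  | join i j a iha =>
    intro u
    simp only [mapLab, lab, iha]

theorem Adj_mapLab {k' : ℕ} {g : Fin k → Fin k'} (hg : Function.Injective g) :
    ∀ (e : Expr k V) (u w : V), (e.mapLab g).Adj u w ↔ e.Adj u w := by
  intro e
  induction e with
  | vertex v i => intro u w; exact Iff.rfl
  | union a b iha ihb =>
    intro u w
    simp only [mapLab, Adj, iha, ihb]
  | relabel i j a iha =>
    intro u w
    simp only [mapLab, Adj, iha]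
  | join i j a iha =>
    intro u w
    simp only [mapLab, Adj, iha, verts_mapLab, lab_mapLab hg, hg.eq_iff]

theorem Valid_mapLab {k' : ℕ} {g : Fin k → Fin k'} (hg : Function.Injective g) :
    ∀ (e : Expr k V), e.Valid → (e.mapLab g).Valid := by
  intro e
  induction e with
  | vertex v i => intro _; trivial
  | union a b iha ihb =>
    rintro ⟨ha, hb, hd⟩
    refine ⟨iha ha, ihb hb, ?_⟩
    rw [verts_mapLab, verts_mapLab]
    exact hd
  | relabel i j a iha => exact iha
  | join i j a iha =>
    rintro ⟨ha, hij⟩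
    exact ⟨iha ha, fun h => hij (hg h)⟩

/-- an expression for an edgeless graph all of whose vertices have the label `i` -/
theorem exists_edgeless (i : Fin k) (s : Finset V) (hs : s.Nonempty) :
    ∃ e : Expr k V, e.Valid ∧ e.verts = s ∧ (∀ v ∈ s, e.lab v = i) ∧ ∀ u w, ¬ e.Adj u w := by
  induction hs using Finset.Nonempty.cons_induction with
  | singleton a => exact ⟨vertex a i, trivial, rfl, fun _ _ => rfl, fun _ _ h => h⟩
  | cons a s ha hs ih =>
    obtain ⟨e, h1, h2, h3, h4⟩ := ih
    refine ⟨union (vertex a i) e, ⟨trivial, h1, ?_⟩, ?_, ?_, ?_⟩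
    · rw [h2]; simpa [verts] using ha
    · rw [Finset.cons_eq_insert, ← h2]; rfl
    · intro v hv
      rw [Finset.mem_cons] at hv
      by_cases hva : v = a
      · simp [lab, verts, hva]
      · have hvs : v ∈ s := hv.resolve_left hva
        simp only [lab, verts, Finset.mem_singleton, hva, if_false]
        exact h3 v hvs
    · rintro u w (h | h)
      · exact h
      · exact h4 u w h

end Expr

theorem CliqueWidthLE.mono {k k' : ℕ} (hk : k ≤ k') {V : Type} [Fintype V] [DecidableEq V]
    {G : SimpleGraph V} (h : CliqueWidthLE k G) : CliqueWidthLE k' G := by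
  obtain ⟨e, h1, h2, h3⟩ := h
  have hg : Function.Injective (Fin.castLE hk) := Fin.castLE_injective hk
  refine ⟨e.mapLab (Fin.castLE hk), Expr.Valid_mapLab hg e h1, ?_, fun u w => ?_⟩
  · rw [Expr.verts_mapLab, h2]
  · rw [Expr.Adj_mapLab hg, h3]

/-- The building blocks of the construction. -/
structure IsPk (d a b : ℕ) {V : Type} [Fintype V] [DecidableEq V] (e : Expr 4 V) : Prop where
  valid : e.Valid
  verts : e.verts = univ
  lab_ne : ∀ v, e.lab v ≠ 3
  card0 : ∃ T : Finset V, a ≤ T.card ∧ ∀ v ∈ T, e.lab v = 0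
  card1 : ∃ T : Finset V, d ≤ T.card ∧ ∀ v ∈ T, e.lab v = 1
  deg : ∀ v, e.lab v ≠ 1 → ∃ T : Finset V, d ≤ T.card ∧ ∀ u ∈ T, e.Adj v u
  deg1 : ∀ v, e.lab v = 1 → ∃ T : Finset V, b ≤ T.card ∧ ∀ u ∈ T, e.Adj v u
  col : ∀ (f : V → Fin 4) (A : Finset (Fin 4)), 2 ≤ A.card → (∃ u, e.lab u = 0 ∧ f u ∈ A) →
    (∃ x γ, e.lab x = 2 ∧ f x ≠ γ ∧ ∀ y, e.Adj x y → f y ≠ γ) ∨
    (∃ p, e.lab p = 1 ∧ ∀ y, e.Adj p y → f y ∈ A)

/-- There is a building block with the given parameters. -/
def HasPk (d a b : ℕ) : Prop :=
  ∃ (V : Type) (_ : Fintype V) (_ : DecidableEq V) (e : Expr 4 V), IsPk d a b e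

theorem hasPk_base {d : ℕ} (hd : 1 ≤ d) : HasPk d 1 1 := by
  classical
  obtain ⟨e0, h1, h2, h3, h4⟩ := Expr.exists_edgeless (k := 4) (V := Option (Fin d)) 1
    (univ.image some) (by
      have : Nonempty (Fin d) := ⟨⟨0, hd⟩⟩
      exact (Finset.univ_nonempty).image _)
  have hmem : ∀ i : Fin d, some i ∈ e0.verts := by intro i; rw [h2]; simp
  have hnone : (none : Option (Fin d)) ∉ e0.verts := by rw [h2]; simp
  have hl0 : (Expr.union (Expr.vertex none 0) e0 : Expr 4 (Option (Fin d))).lab none = 0 := by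
    simp [Expr.lab, Expr.verts]
  have hl1 : ∀ i : Fin d,
      (Expr.union (Expr.vertex none 0) e0 : Expr 4 (Option (Fin d))).lab (some i) = 1 := by
    intro i
    simp only [Expr.lab, Expr.verts, Finset.mem_singleton, reduceCtorEq, if_false]
    exact h3 _ (by simp)
  have hadj : ∀ u w, (Expr.join 0 1 (Expr.union (Expr.vertex none 0) e0) :
      Expr 4 (Option (Fin d))).Adj u w ↔ (u = none ∧ w ≠ none) ∨ (u ≠ none ∧ w = none) := by
    intro u w
    rcases u with _ | i <;> rcases w with _ | j
    · simp [Expr.Adj, h4, hl0]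
    · simp [Expr.Adj, h4, hl0, hl1, Expr.verts, hmem]
    · simp [Expr.Adj, h4, hl0, hl1, Expr.verts, hmem]
    · simp [Expr.Adj, h4, hl1]
  refine ⟨Option (Fin d), inferInstance, inferInstance,
    Expr.join 0 1 (Expr.union (Expr.vertex none 0) e0), ?_, ?_, ?_, ?_, ?_, ?_, ?_, ?_⟩
  · refine ⟨⟨trivial, h1, ?_⟩, by decide⟩
    simpa [Expr.verts] using hnone
  · ext u
    rcases u with _ | i
    · simp [Expr.verts]
    · simp [Expr.verts, hmem]
  · intro v
    rcases v with _ | i
    · show (Expr.union (Expr.vertex none 0) e0 : Expr 4 (Option (Fin d))).lab none ≠ 3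
      rw [hl0]; decide
    · show (Expr.union (Expr.vertex none 0) e0 : Expr 4 (Option (Fin d))).lab (some i) ≠ 3
      rw [hl1]; decide
  · exact ⟨{none}, by simp, fun v hv => by rw [Finset.mem_singleton.mp hv]; exact hl0⟩
  · refine ⟨univ.image some, ?_, ?_⟩
    · rw [Finset.card_image_of_injective _ (Option.some_injective _)]; simp
    · intro v hv
      obtain ⟨i, _, rfl⟩ := Finset.mem_image.mp hv
      exact hl1 i
  · intro v hv
    rcases v with _ | i
    · refine ⟨univ.image some, ?_, ?_⟩
      · rw [Finset.card_image_of_injective _ (Option.some_injective _)]; simp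
      · intro v hv
        obtain ⟨i, _, rfl⟩ := Finset.mem_image.mp hv
        rw [hadj]; simp
    · exact absurd (hl1 i) hv
  · intro v hv
    rcases v with _ | i
    · exact absurd (hl0.symm.trans hv) (by decide)
    · refine ⟨{none}, by simp, fun u hu => ?_⟩
      rw [Finset.mem_singleton.mp hu, hadj]; simp
  · rintro f A _ ⟨u, hu, hfu⟩
    right
    refine ⟨some ⟨0, hd⟩, hl1 _, fun y hy => ?_⟩
    rcases u with _ | i
    · rw [hadj] at hy
      rcases hy with hy | hy
      · simp at hy
      · rw [hy.2]; exact hfu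
    · exact absurd ((hl1 i).symm.trans hu) (by decide)

theorem hasPk_union {d a a' b : ℕ} (h : HasPk d a b) (h' : HasPk d a' b) :
    HasPk d (a + a') b := by
  classical
  obtain ⟨V, _, _, e, he⟩ := h
  obtain ⟨W, _, _, e', he'⟩ := h'
  have hl : Function.Injective (Sum.inl : V → V ⊕ W) := Sum.inl_injective
  have hr : Function.Injective (Sum.inr : W → V ⊕ W) := Sum.inr_injective
  have hmemV : ∀ v : V, v ∈ e.verts := fun v => by rw [he.verts]; exact Finset.mem_univ v
  have hmemW : ∀ v : W, v ∈ e'.verts := fun v => by rw [he'.verts]; exact Finset.mem_univ v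
  set E : Expr 4 (V ⊕ W) := Expr.union (e.map Sum.inl) (e'.map Sum.inr) with hE
  have hlabl : ∀ v : V, E.lab (Sum.inl v) = e.lab v := by
    intro v
    have : (Sum.inl v : V ⊕ W) ∈ (e.map Sum.inl).verts := (Expr.mem_verts_map hl e v).mpr (hmemV v)
    simp only [hE, Expr.lab, this, if_true, Expr.lab_map hl]
  have hlabr : ∀ v : W, E.lab (Sum.inr v) = e'.lab v := by
    intro v
    have : (Sum.inr v : V ⊕ W) ∉ (e.map Sum.inl).verts := by
      rw [Expr.verts_map]; simp
    simp only [hE, Expr.lab, this, if_false, Expr.lab_map hr]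
  have hll : ∀ v v' : V, E.Adj (Sum.inl v) (Sum.inl v') ↔ e.Adj v v' := by
    intro v v'
    have : ¬ (e'.map Sum.inr).Adj (Sum.inl v : V ⊕ W) (Sum.inl v') := by
      intro h
      have := (Expr.Adj_verts _ h).1
      rw [Expr.verts_map] at this; simp at this
    simp only [hE, Expr.Adj, this, or_false, Expr.Adj_map hl]
  have hrr : ∀ v v' : W, E.Adj (Sum.inr v) (Sum.inr v') ↔ e'.Adj v v' := by
    intro v v'
    have : ¬ (e.map Sum.inl).Adj (Sum.inr v : V ⊕ W) (Sum.inr v') := by
      intro h
      have := (Expr.Adj_verts _ h).1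
      rw [Expr.verts_map] at this; simp at this
    simp only [hE, Expr.Adj, this, false_or, Expr.Adj_map hr]
  have hlr : ∀ (v : V) (v' : W), ¬ E.Adj (Sum.inl v) (Sum.inr v') := by
    intro v v' h
    rcases h with h | h
    · have := (Expr.Adj_verts _ h).2
      rw [Expr.verts_map] at this; simp at this
    · have := (Expr.Adj_verts _ h).1
      rw [Expr.verts_map] at this; simp at this
  have hrl : ∀ (v : V) (v' : W), ¬ E.Adj (Sum.inr v') (Sum.inl v) := by
    intro v v' h
    exact hlr v v' (Expr.Adj_symm _ h)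
  refine ⟨V ⊕ W, inferInstance, inferInstance, E, ?_, ?_, ?_, ?_, ?_, ?_, ?_, ?_⟩
  · refine ⟨Expr.Valid_map hl e he.valid, Expr.Valid_map hr e' he'.valid, ?_⟩
    rw [Expr.verts_map, Expr.verts_map, Finset.disjoint_left]
    intro x hx hx'
    obtain ⟨v, _, rfl⟩ := Finset.mem_image.mp hx
    simp at hx'
  · ext x
    rcases x with v | v
    · simp [hE, Expr.verts, Expr.verts_map, hmemV]
    · simp [hE, Expr.verts, Expr.verts_map, hmemW]
  · intro x
    rcases x with v | v
    · rw [hlabl]; exact he.lab_ne v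
    · rw [hlabr]; exact he'.lab_ne v
  · obtain ⟨T, hT, hT0⟩ := he.card0
    obtain ⟨T', hT', hT0'⟩ := he'.card0
    refine ⟨T.disjSum T', ?_, ?_⟩
    · rw [Finset.card_disjSum]; omega
    · intro x hx
      rcases x with v | v
      · rw [hlabl]; exact hT0 v (Finset.inl_mem_disjSum.mp hx)
      · rw [hlabr]; exact hT0' v (Finset.inr_mem_disjSum.mp hx)
  · obtain ⟨T, hT, hT0⟩ := he.card1
    refine ⟨T.image Sum.inl, ?_, ?_⟩
    · rw [Finset.card_image_of_injective _ hl]; exact hT
    · intro x hx
      obtain ⟨v, hv, rfl⟩ := Finset.mem_image.mp hx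
      rw [hlabl]; exact hT0 v hv
  · intro x hx
    rcases x with v | v
    · rw [hlabl] at hx
      obtain ⟨T, hT, hT0⟩ := he.deg v hx
      refine ⟨T.image Sum.inl, ?_, ?_⟩
      · rw [Finset.card_image_of_injective _ hl]; exact hT
      · intro y hy
        obtain ⟨w, hw, rfl⟩ := Finset.mem_image.mp hy
        rw [hll]; exact hT0 w hw
    · rw [hlabr] at hx
      obtain ⟨T, hT, hT0⟩ := he'.deg v hx
      refine ⟨T.image Sum.inr, ?_, ?_⟩
      · rw [Finset.card_image_of_injective _ hr]; exact hT
      · intro y hy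
        obtain ⟨w, hw, rfl⟩ := Finset.mem_image.mp hy
        rw [hrr]; exact hT0 w hw
  · intro x hx
    rcases x with v | v
    · rw [hlabl] at hx
      obtain ⟨T, hT, hT0⟩ := he.deg1 v hx
      refine ⟨T.image Sum.inl, ?_, ?_⟩
      · rw [Finset.card_image_of_injective _ hl]; exact hT
      · intro y hy
        obtain ⟨w, hw, rfl⟩ := Finset.mem_image.mp hy
        rw [hll]; exact hT0 w hw
    · rw [hlabr] at hx
      obtain ⟨T, hT, hT0⟩ := he'.deg1 v hx
      refine ⟨T.image Sum.inr, ?_, ?_⟩
      · rw [Finset.card_image_of_injective _ hr]; exact hT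
      · intro y hy
        obtain ⟨w, hw, rfl⟩ := Finset.mem_image.mp hy
        rw [hrr]; exact hT0 w hw
  · rintro f A hA ⟨x, hx, hfx⟩
    rcases x with v | v
    · rw [hlabl] at hx
      rcases he.col (fun v => f (Sum.inl v)) A hA ⟨v, hx, hfx⟩ with
        ⟨z, γ, h1, h2, h3⟩ | ⟨p, h1, h2⟩
      · left
        refine ⟨Sum.inl z, γ, by rw [hlabl]; exact h1, h2, fun y hy => ?_⟩
        rcases y with y | y
        · exact h3 y ((hll z y).mp hy)
        · exact absurd hy (hlr z y)
      · right
        refine ⟨Sum.inl p, by rw [hlabl]; exact h1, fun y hy => ?_⟩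
        rcases y with y | y
        · exact h2 y ((hll p y).mp hy)
        · exact absurd hy (hlr p y)
    · rw [hlabr] at hx
      rcases he'.col (fun v => f (Sum.inr v)) A hA ⟨v, hx, hfx⟩ with
        ⟨z, γ, h1, h2, h3⟩ | ⟨p, h1, h2⟩
      · left
        refine ⟨Sum.inr z, γ, by rw [hlabr]; exact h1, h2, fun y hy => ?_⟩
        rcases y with y | y
        · exact absurd hy (hrl y z)
        · exact h3 y ((hrr z y).mp hy)
      · right
        refine ⟨Sum.inr p, by rw [hlabr]; exact h1, fun y hy => ?_⟩
        rcases y with y | y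
        · exact absurd hy (hrl y p)
        · exact h2 y ((hrr p y).mp hy)

theorem hasPk_multi {d b : ℕ} (h : HasPk d 1 b) : ∀ n, HasPk d (n + 1) b := by
  intro n
  induction n with
  | zero => exact h
  | succ n ih => exact hasPk_union ih h

theorem hasPk_step {d b : ℕ} (h : HasPk d d b) : HasPk d 1 (b + 1) := by
  classical
  obtain ⟨V, _, _, e, he⟩ := h
  have hl : Function.Injective (Sum.inl : V → V ⊕ Bool) := Sum.inl_injective
  have hmemV : ∀ v : V, v ∈ e.verts := fun v => by rw [he.verts]; exact Finset.mem_univ v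
  -- the stages of the construction
  set E0 : Expr 4 (V ⊕ Bool) := Expr.union (Expr.vertex (Sum.inr false) 3) (e.map Sum.inl) with hE0
  set E1 : Expr 4 (V ⊕ Bool) := Expr.relabel 0 2 (Expr.relabel 3 2 (Expr.join 3 0 E0)) with hE1
  set E2 : Expr 4 (V ⊕ Bool) := Expr.union (Expr.vertex (Sum.inr true) 0) E1 with hE2
  set E3 : Expr 4 (V ⊕ Bool) := Expr.join 0 1 E2 with hE3
  have hv0 : ∀ v : V, (Sum.inl v : V ⊕ Bool) ∈ E0.verts := by
    intro v
    simp [hE0, Expr.verts, Expr.verts_map, hmemV]
  have hv0s : (Sum.inr false : V ⊕ Bool) ∈ E0.verts := by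
    simp [hE0, Expr.verts]
  have hv0w : (Sum.inr true : V ⊕ Bool) ∉ E0.verts := by
    simp [hE0, Expr.verts, Expr.verts_map]
  have hl0 : ∀ v : V, E0.lab (Sum.inl v) = e.lab v := by
    intro v
    simp only [hE0, Expr.lab, Expr.verts, Finset.mem_singleton, reduceCtorEq, if_false,
      Expr.lab_map hl]
  have hl0s : E0.lab (Sum.inr false) = 3 := by
    simp [hE0, Expr.lab, Expr.verts]
  have hadj0 : ∀ v v' : V, E0.Adj (Sum.inl v) (Sum.inl v') ↔ e.Adj v v' := by
    intro v v'
    simp only [hE0, Expr.Adj, false_or, Expr.Adj_map hl]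
  have hadj0s : ∀ x, ¬ E0.Adj (Sum.inr false) x := by
    rintro x (h | h)
    · exact h
    · have := (Expr.Adj_verts _ h).1
      rw [Expr.verts_map] at this; simp at this
  have hv1 : E1.verts = E0.verts := rfl
  have hl1' : ∀ x, E1.lab x = if (if E0.lab x = 3 then 2 else E0.lab x) = 0 then 2 else
      (if E0.lab x = 3 then 2 else E0.lab x) := fun x => rfl
  have hl1 : ∀ v : V, E1.lab (Sum.inl v) = if e.lab v = 0 then 2 else e.lab v := by
    intro v
    rw [hl1', hl0]
    simp only [he.lab_ne v, if_false]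
  have hl1s : E1.lab (Sum.inr false) = 2 := by
    rw [hl1', hl0s]; simp
  have hadj1' : ∀ x y, E1.Adj x y ↔ (E0.Adj x y ∨ (x ∈ E0.verts ∧ y ∈ E0.verts ∧
      ((E0.lab x = 3 ∧ E0.lab y = 0) ∨ (E0.lab x = 0 ∧ E0.lab y = 3)))) := fun x y => Iff.rfl
  have hadj1 : ∀ v v' : V, E1.Adj (Sum.inl v) (Sum.inl v') ↔ e.Adj v v' := by
    intro v v'
    rw [hadj1', hadj0, hl0, hl0]
    constructor
    · rintro (h | ⟨_, _, h | h⟩)
      · exact h
      · exact absurd h.1 (he.lab_ne v)
      · exact absurd h.2 (he.lab_ne v')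
    · exact Or.inl
  have hadj1s : ∀ v : V, E1.Adj (Sum.inr false) (Sum.inl v) ↔ e.lab v = 0 := by
    intro v
    rw [hadj1', hl0, hl0s]
    constructor
    · rintro (h | ⟨_, _, h | h⟩)
      · exact absurd h (hadj0s _)
      · exact h.2
      · exact absurd h.2 (he.lab_ne v)
    · intro h
      exact Or.inr ⟨hv0s, hv0 v, Or.inl ⟨rfl, h⟩⟩
  have hv2w : (Sum.inr true : V ⊕ Bool) ∈ E2.verts := by simp [hE2, Expr.verts]
  have hv2 : ∀ x, x ∈ E0.verts → x ∈ E2.verts := by
    intro x hx
    rw [hE2]
    exact Finset.mem_union_right _ hx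
  have hl2w : E2.lab (Sum.inr true) = 0 := by simp [hE2, Expr.lab, Expr.verts]
  have hl2 : ∀ v : V, E2.lab (Sum.inl v) = if e.lab v = 0 then 2 else e.lab v := by
    intro v
    rw [← hl1]
    simp only [hE2, Expr.lab, Expr.verts, Finset.mem_singleton, reduceCtorEq, if_false]
  have hl2s : E2.lab (Sum.inr false) = 2 := by
    rw [← hl1s]
    simp [hE2, Expr.lab, Expr.verts]
  have hl2' : ∀ v : V, E2.lab (Sum.inl v) ≠ 0 := by
    intro v
    rw [hl2]
    split_ifs with h
    · decide
    · exact h
  have hl2one : ∀ v : V, E2.lab (Sum.inl v) = 1 ↔ e.lab v = 1 := by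
    intro v
    rw [hl2]
    split_ifs with h
    · rw [h]; decide
    · exact Iff.rfl
  have hadj2 : ∀ x y, x ≠ Sum.inr true → (E2.Adj x y ↔ E1.Adj x y) := by
    intro x y _
    simp only [hE2, Expr.Adj, false_or]
  have hadj2w : ∀ y, ¬ E2.Adj (Sum.inr true) y := by
    rintro y (h | h)
    · exact h
    · exact hv0w (Expr.Adj_verts _ h).1
  have hadj3' : ∀ x y, E3.Adj x y ↔ (E2.Adj x y ∨ (x ∈ E2.verts ∧ y ∈ E2.verts ∧
      ((E2.lab x = 0 ∧ E2.lab y = 1) ∨ (E2.lab x = 1 ∧ E2.lab y = 0)))) := fun x y => Iff.rfl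
  -- the final adjacencies
  have A1 : ∀ v v' : V, E3.Adj (Sum.inl v) (Sum.inl v') ↔ e.Adj v v' := by
    intro v v'
    rw [hadj3', hadj2 _ _ (by simp), hadj1]
    constructor
    · rintro (h | ⟨_, _, h | h⟩)
      · exact h
      · exact absurd h.1 (hl2' v)
      · exact absurd h.2 (hl2' v')
    · exact Or.inl
  have A2 : ∀ v : V, E3.Adj (Sum.inr false) (Sum.inl v) ↔ e.lab v = 0 := by
    intro v
    rw [hadj3', hadj2 _ _ (by simp), hadj1s, hl2s]
    constructor
    · rintro (h | ⟨_, _, h | h⟩)
      · exact h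
      · exact absurd h.1 (by decide)
      · exact absurd h.1 (by decide)
    · exact Or.inl
  have A3 : ∀ v : V, E3.Adj (Sum.inr true) (Sum.inl v) ↔ e.lab v = 1 := by
    intro v
    rw [hadj3', hl2w, hl2one]
    constructor
    · rintro (h | ⟨_, _, h | h⟩)
      · exact absurd h (hadj2w _)
      · exact h.2
      · exact absurd h.1 (by decide)
    · intro h
      exact Or.inr ⟨hv2w, hv2 _ (hv0 v), Or.inl ⟨rfl, h⟩⟩
  have A4 : ∀ b : Bool, ¬ E3.Adj (Sum.inr false) (Sum.inr b) := by
    intro b h
    rw [hadj3', hl2s] at h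
    rcases h with h | ⟨_, _, h | h⟩
    · rw [hadj2 _ _ (by simp), hadj1', hl0s] at h
      rcases h with h | ⟨_, hb, h | h⟩
      · exact hadj0s _ h
      · rcases b with _ | _
        · rw [hl0s] at h; exact absurd h.2 (by decide)
        · exact hv0w hb
      · exact absurd h.1 (by decide)
    · exact absurd h.1 (by decide)
    · exact absurd h.1 (by decide)
  have A5 : ∀ v : V, E3.lab (Sum.inl v) = if e.lab v = 0 then 2 else e.lab v := hl2
  have A5' : ∀ v : V, E3.lab (Sum.inl v) = 1 ↔ e.lab v = 1 := hl2one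
  have A6 : E3.lab (Sum.inr false) = 2 := hl2s
  have A7 : E3.lab (Sum.inr true) = 0 := hl2w
  refine ⟨V ⊕ Bool, inferInstance, inferInstance, E3, ?_, ?_, ?_, ?_, ?_, ?_, ?_, ?_⟩
  · refine ⟨⟨trivial, ⟨⟨trivial, Expr.Valid_map hl e he.valid, ?_⟩, by decide⟩, ?_⟩, by decide⟩
    · rw [Expr.verts_map]
      simp [Expr.verts]
    · rw [hv1]
      simpa [Expr.verts] using hv0w
  · ext x
    rcases x with v | b
    · simp only [Finset.mem_univ, iff_true]
      exact hv2 _ (hv0 v)
    · simp only [Finset.mem_univ, iff_true]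
      rcases b with _ | _
      · exact hv2 _ hv0s
      · exact hv2w
  · intro x
    rcases x with v | b
    · rw [A5]
      split_ifs
      · decide
      · exact he.lab_ne v
    · rcases b with _ | _
      · rw [A6]; decide
      · rw [A7]; decide
  · exact ⟨{Sum.inr true}, by simp, fun x hx => by rw [Finset.mem_singleton.mp hx]; exact A7⟩
  · obtain ⟨T, hT, hT1⟩ := he.card1
    refine ⟨T.image Sum.inl, ?_, ?_⟩
    · rw [Finset.card_image_of_injective _ hl]; exact hT
    · intro x hx
      obtain ⟨v, hv, rfl⟩ := Finset.mem_image.mp hx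
      exact (A5' v).mpr (hT1 v hv)
  · intro x hx
    rcases x with v | b
    · have hv1 : e.lab v ≠ 1 := fun h => hx ((A5' v).mpr h)
      obtain ⟨T, hT, hT1⟩ := he.deg v hv1
      refine ⟨T.image Sum.inl, ?_, ?_⟩
      · rw [Finset.card_image_of_injective _ hl]; exact hT
      · intro y hy
        obtain ⟨u, hu, rfl⟩ := Finset.mem_image.mp hy
        exact (A1 v u).mpr (hT1 u hu)
    · rcases b with _ | _
      · obtain ⟨T, hT, hT1⟩ := he.card0
        refine ⟨T.image Sum.inl, ?_, ?_⟩
        · rw [Finset.card_image_of_injective _ hl]; exact hT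
        · intro y hy
          obtain ⟨u, hu, rfl⟩ := Finset.mem_image.mp hy
          exact (A2 u).mpr (hT1 u hu)
      · obtain ⟨T, hT, hT1⟩ := he.card1
        refine ⟨T.image Sum.inl, ?_, ?_⟩
        · rw [Finset.card_image_of_injective _ hl]; exact hT
        · intro y hy
          obtain ⟨u, hu, rfl⟩ := Finset.mem_image.mp hy
          exact (A3 u).mpr (hT1 u hu)
  · intro x hx
    rcases x with v | b
    · have hv1 : e.lab v = 1 := (A5' v).mp hx
      obtain ⟨T, hT, hT1⟩ := he.deg1 v hv1
      refine ⟨insert (Sum.inr true) (T.image Sum.inl), ?_, ?_⟩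
      · rw [Finset.card_insert_of_notMem (by simp), Finset.card_image_of_injective _ hl]
        omega
      · intro y hy
        rcases Finset.mem_insert.mp hy with rfl | hy
        · exact Expr.Adj_symm _ ((A3 v).mpr hv1)
        · obtain ⟨u, hu, rfl⟩ := Finset.mem_image.mp hy
          exact (A1 v u).mpr (hT1 u hu)
    · rcases b with _ | _
      · exact absurd (A6.symm.trans hx) (by decide)
      · exact absurd (A7.symm.trans hx) (by decide)
  · rintro f A hA ⟨x, hx, hfx⟩
    have hfw : f (Sum.inr true) ∈ A := by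
      rcases x with v | b
      · exact absurd hx (hl2' v)
      · rcases b with _ | _
        · exact absurd (A6.symm.trans hx) (by decide)
        · exact hfx
    -- a colour of `A` different from the colour of `s`
    obtain ⟨γ, hγA, hγs⟩ : ∃ γ ∈ A, γ ≠ f (Sum.inr false) := by
      by_contra hcon
      push Not at hcon
      have : A ⊆ {f (Sum.inr false)} := fun γ hγ => Finset.mem_singleton.mpr (hcon γ hγ)
      have := Finset.card_le_card this
      rw [Finset.card_singleton] at this
      omega
    by_cases hex : ∃ u : V, e.lab u = 0 ∧ f (Sum.inl u) = γ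
    · obtain ⟨u, hu, hfu⟩ := hex
      rcases he.col (fun v => f (Sum.inl v)) A hA ⟨u, hu, by
        show f (Sum.inl u) ∈ A
        rw [hfu]; exact hγA⟩ with ⟨z, δ, h1, h2, h3⟩ | ⟨p, h1, h2⟩
      · left
        refine ⟨Sum.inl z, δ, ?_, h2, ?_⟩
        · rw [A5, h1]; decide
        · intro y hy
          rcases y with y | b
          · exact h3 y ((A1 z y).mp hy)
          · rcases b with _ | _
            · have := (A2 z).mp (Expr.Adj_symm _ hy)
              rw [h1] at this
              exact absurd this (by decide)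
            · have := (A3 z).mp (Expr.Adj_symm _ hy)
              rw [h1] at this
              exact absurd this (by decide)
      · right
        refine ⟨Sum.inl p, (A5' p).mpr h1, ?_⟩
        intro y hy
        rcases y with y | b
        · exact h2 y ((A1 p y).mp hy)
        · rcases b with _ | _
          · have := (A2 p).mp (Expr.Adj_symm _ hy)
            rw [h1] at this
            exact absurd this (by decide)
          · exact hfw
    · left
      refine ⟨Sum.inr false, γ, A6, fun h => hγs h.symm, ?_⟩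
      intro y hy
      rcases y with y | b
      · intro h
        exact hex ⟨y, (A2 y).mp hy, h⟩
      · exact absurd hy (A4 b)

theorem hasPk_final {d : ℕ} (hd : 1 ≤ d) : ∀ b, HasPk d 1 (b + 1) := by
  intro b
  induction b with
  | zero => exact hasPk_base hd
  | succ b ih =>
    apply hasPk_step
    obtain ⟨d', rfl⟩ : ∃ d', d = d' + 1 := ⟨d - 1, by omega⟩
    exact hasPk_multi ih d'

theorem DomaticPartition.four {V : Type} {G : SimpleGraph V} {n : ℕ} (h : DomaticPartition G n)
    (hn : 4 ≤ n) : DomaticPartition G 4 := by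
  obtain ⟨f, hf⟩ := h
  refine ⟨fun v => ⟨min (f v).val 3, by omega⟩, fun i v => ?_⟩
  obtain ⟨u, hu, huv⟩ := hf ⟨i.val, by omega⟩ v
  refine ⟨u, ?_, huv⟩
  have : (f u).val = i.val := congrArg Fin.val hu
  show (⟨min (f u).val 3, _⟩ : Fin 4) = i
  ext
  show min (f u).val 3 = i.val
  omega

/-- Graphs of clique-width at most four, of large minimum degree, with domatic number at most
three. -/
theorem exists_bad {d : ℕ} (hd : 1 ≤ d) : ∃ (V : Type) (_ : Fintype V) (_ : DecidableEq V)
    (G : SimpleGraph V), CliqueWidthLE 4 G ∧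
      (∀ v, ∃ T : Finset V, d ≤ T.card ∧ ∀ u ∈ T, G.Adj v u) ∧
      ∀ n, DomaticPartition G n → n ≤ 3 := by
  classical
  obtain ⟨d', rfl⟩ : ∃ d', d = d' + 1 := ⟨d - 1, by omega⟩
  obtain ⟨V, _, _, e, he⟩ := hasPk_final hd d'
  let G : SimpleGraph V :=
    { Adj := e.Adj
      symm := ⟨fun u w h => Expr.Adj_symm e h⟩
      loopless := ⟨fun u => Expr.Adj_irrefl e he.valid u⟩ }
  refine ⟨V, inferInstance, inferInstance, G, ⟨e, he.valid, he.verts, fun _ _ => Iff.rfl⟩, ?_, ?_⟩
  · intro v
    by_cases hv : e.lab v = 1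
    · exact he.deg1 v hv
    · exact he.deg v hv
  · intro n hn
    by_contra hcon
    obtain ⟨f, hf⟩ := hn.four (by omega)
    obtain ⟨T, hT, hT0⟩ := he.card0
    obtain ⟨u, hu⟩ : T.Nonempty := Finset.card_pos.mp (by omega)
    obtain ⟨δ, hδ⟩ : ∃ δ : Fin 4, δ ≠ f u := by
      exact exists_ne (f u)
    rcases he.col f {f u, δ} (by rw [Finset.card_pair hδ.symm]) ⟨u, hT0 u hu, by simp⟩ with
      ⟨x, γ, _, h2, h3⟩ | ⟨p, _, h2⟩
    · obtain ⟨y, hy, hyx⟩ := hf γ x
      rcases hyx with rfl | hyx
      · exact h2 hy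
      · exact h3 y (Expr.Adj_symm e hyx) hy
    · obtain ⟨γ, hγ⟩ : ∃ γ : Fin 4, γ ∉ ({f u, δ, f p} : Finset (Fin 4)) := by
        by_contra hcon
        push Not at hcon
        have h1 : (univ : Finset (Fin 4)) ⊆ {f u, δ, f p} := fun γ _ => hcon γ
        have h2 := Finset.card_le_card h1
        have h3 : ({f u, δ, f p} : Finset (Fin 4)).card ≤ 3 := Finset.card_le_three
        rw [Finset.card_univ, Fintype.card_fin] at h2
        omega
      simp only [Finset.mem_insert, Finset.mem_singleton, not_or] at hγ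
      obtain ⟨y, hy, hyp⟩ := hf γ p
      have hy' : f y = γ := hy
      rcases hyp with rfl | hyp
      · exact hγ.2.2 hy'.symm
      · have := h2 y (Expr.Adj_symm e hyp)
        rw [hy'] at this
        simp only [Finset.mem_insert, Finset.mem_singleton] at this
        rcases this with h | h
        · exact hγ.1 h
        · exact hγ.2.1 h

theorem false_of_expr {k : ℕ} {V : Type} (hV : IsEmpty V) : Expr k V → False := by
  intro e
  induction e with
  | vertex v i => exact hV.elim v
  | union a b iha ihb => exact iha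
  | relabel i j a iha => exact iha
  | join i j a iha => exact iha

theorem not_domBounded {t : ℕ} (ht : 4 ≤ t) :
    ¬ DOMBounded (fun V _ _ G => CliqueWidthLE t G) := by
  classical
  intro h
  obtain ⟨d, hd⟩ := h 3
  obtain ⟨V, _, _, G, h1, h2, h3⟩ := exists_bad (d := d + 1) (by omega)
  have hne : Nonempty V := by
    obtain ⟨e, _, hv, _⟩ := h1
    by_contra hcon
    rw [not_nonempty_iff] at hcon
    exact false_of_expr hcon e
  have hmin : d ≤ G.minDegree := by
    apply SimpleGraph.le_minDegree_of_forall_le_degree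
    intro v
    obtain ⟨T, hT, hT'⟩ := h2 v
    rw [← SimpleGraph.card_neighborFinset_eq_degree]
    refine le_trans (by omega) (le_trans hT (Finset.card_le_card ?_))
    intro u hu
    rw [SimpleGraph.mem_neighborFinset]
    exact hT' u hu
  have := hd V G (h1.mono ht) hmin
  have h4 : domaticNumber G ≤ 3 := by
    apply csSup_le'
    intro n hn
    exact h3 n hn
  omega

end H115D
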