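import Mathlib
import Pool.Agent.H115D.Algo

/-!
# Existence of the colouring for expressions with three labels
-/

namespace H115D

open Finset

set_option linter.unusedVariables false

namespace Expr

variable {V : Type} [DecidableEq V]

theorem request2 {c : ℕ} (e : Expr 3 V) (hv : e.Valid) (Q K : Finset V) (hK : K ⊆ e.verts)
    (S0 : Finset (Fin c)) (σ : V → Option (Fin c))
    (hinj : ∀ u ∈ K, ∀ w ∈ K, ∀ γ, σ u = some γ → σ w = some γ → u = w) :
    ∃ σ' : V → Option (Fin c), (∀ u, u ∉ K → σ' u = σ u) ∧
      (∀ u γ, σ u = some γ → σ' u = some γ) ∧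
      (∀ u ∈ K, ∀ w ∈ K, ∀ γ, σ' u = some γ → σ' w = some γ → u = w) ∧
      (∀ r ∈ K, ∀ γ, σ r = none → σ' r = some γ → Q.Nonempty ∧ γ ∉ S0 ∧ LA c K r e) ∧
      (Q.Nonempty → ((∀ r ∈ K, σ' r ≠ none) ∨ (∀ γ, γ ∈ S0 ∨ ∃ r ∈ K, σ' r = some γ))) := by
  by_cases hQ : Q.Nonempty
  · obtain ⟨σ', h1, h2, h3, h4, h5⟩ := request e hv K hK S0 _ σ le_rfl hinj
    exact ⟨σ', h1, h2, h3, fun r hr γ a b => ⟨hQ, h4 r hr γ a b⟩, fun _ => h5⟩
  · refine ⟨σ, fun _ _ => rfl, fun _ _ h => h, hinj, fun r _ γ h1 h2 => ?_, fun h => absurd h hQ⟩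
    rw [h1] at h2; cases h2

end Expr

open Expr

theorem solve {c : ℕ} (hc : 0 < c) {V : Type} [DecidableEq V] : ∀ (e : Expr 3 V), e.Valid →
    ∀ (S : Fin 3 → Finset (Fin c)) (σ : V → Option (Fin c)),
    (∀ u ∈ e.verts, ∀ w ∈ e.verts, e.lab u = e.lab w →
      ∀ γ, σ u = some γ → σ w = some γ → u = w) →
    ∃ χ : V → Fin c, (∀ u ∈ e.verts, ∀ γ, σ u = some γ → χ u = γ) ∧
      ∀ v ∈ e.verts, ∃ R : Run c v, R.s 0 = e.verts ∧ R.lab 0 = e.lab ∧ R.S 0 = S ∧ R.σ 0 = σ ∧
        (∀ γ ∈ R.S R.m (R.lab R.m v), γ ∈ S (e.lab v) ∨ ∃ u, e.Adj v u ∧ χ u = γ) ∧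
        (∀ u, e.Adj v u → ∃ p < R.m, u ∈ R.seen p) ∧
        (∀ K r, LA c K r e → ∀ q ≤ R.m, r ∈ R.s q →
          c < ((R.s q).filter (fun u => R.lab q u = R.lab q r)).card ∨
          ((R.s q) ∩ K).card ≤ 6 * c) := by
  intro e
  induction e with
  | vertex v0 i =>
    intro _ S σ hinj
    refine ⟨fun u => (σ u).getD ⟨0, hc⟩, fun u _ γ h => by simp [h], ?_⟩
    intro v hv
    refine ⟨{ m := 0, s := fun _ => {v0}, lab := fun _ => (Expr.vertex v0 i : Expr 3 V).lab,
              S := fun _ => S, σ := fun _ => σ, seen := fun _ => ∅,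
              v_mem := fun p _ => hv
              s_anti := fun p hp => absurd hp (Nat.not_lt_zero p)
              ref := fun p hp => absurd hp (Nat.not_lt_zero p)
              S_mono := fun p hp => absurd hp (Nat.not_lt_zero p)
              σ_mono := fun p hp => absurd hp (Nat.not_lt_zero p)
              inj := fun p _ => hinj
              new := fun p hp => absurd hp (Nat.not_lt_zero p)
              seen_spec := fun p hp => absurd hp (Nat.not_lt_zero p)
              seen_class := fun p hp => absurd hp (Nat.not_lt_zero p)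
              seen_new := fun p hp => absurd hp (Nat.not_lt_zero p) },
            rfl, rfl, rfl, rfl, ?_, ?_, ?_⟩
    · intro γ h; left; exact h
    · intro u h; exact h.elim
    · intro K r h q _ _
      exact h
  | union a b iha ihb =>
    intro hv S σ hinj
    obtain ⟨hva, hvb, hdisj⟩ := hv
    have hlaba : ∀ u ∈ a.verts, (Expr.union a b).lab u = a.lab u := by
      intro u hu; simp [Expr.lab, hu]
    have hlabb : ∀ u ∈ b.verts, (Expr.union a b).lab u = b.lab u := by
      intro u hu
      have : u ∉ a.verts := fun h => Finset.disjoint_left.mp hdisj h hu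
      simp [Expr.lab, this]
    have hma : ∀ u ∈ a.verts, u ∈ (Expr.union a b).verts :=
      fun u hu => Finset.mem_union_left _ hu
    have hmb : ∀ u ∈ b.verts, u ∈ (Expr.union a b).verts :=
      fun u hu => Finset.mem_union_right _ hu
    obtain ⟨χa, hχa, hra⟩ := iha hva S σ (fun u hu w hw h => hinj u (hma u hu) w (hma w hw)
      (by rw [hlaba u hu, hlaba w hw]; exact h))
    obtain ⟨χb, hχb, hrb⟩ := ihb hvb S σ (fun u hu w hw h => hinj u (hmb u hu) w (hmb w hw)
      (by rw [hlabb u hu, hlabb w hw]; exact h))
    refine ⟨fun u => if u ∈ a.verts then χa u else χb u, ?_, ?_⟩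
    · intro u hu γ h
      by_cases hua : u ∈ a.verts
      · simp only [hua, if_true]; exact hχa u hua γ h
      · simp only [hua, if_false]
        rcases Finset.mem_union.mp hu with h1 | h1
        · exact absurd h1 hua
        · exact hχb u h1 γ h
    · intro v hv
      rcases Finset.mem_union.mp hv with hv1 | hv1
      · obtain ⟨R, e1, e2, e3, e4, h1, h2, h3⟩ := hra v hv1
        refine ⟨R.cons (Expr.union a b).verts (Expr.union a b).lab S σ ∅ hv
          (by rw [e1]; exact hma) (by
            intro u hu w hw h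
            rw [e1] at hu hw
            rw [hlaba u hu, hlaba w hw, ← e2]; exact h) (by
            intro u hu
            rw [e1] at hu
            rw [e3, e2, hlaba u hu]) (by
            intro u hu γ h
            rw [e4]; exact h) hinj (by
            intro r hr γ h1 h2
            rw [e4, h1] at h2; cases h2) (by intro r hr; simp at hr) (by intro r hr; simp at hr)
          (by intro r hr; simp at hr), rfl, rfl, rfl, rfl, ?_, ?_, ?_⟩
        · intro γ hγ
          rcases h1 γ hγ with h | ⟨u, hu, hχ⟩
          · left; rw [hlaba v hv1]; exact h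
          · right
            refine ⟨u, Or.inl hu, ?_⟩
            simp only [(Expr.Adj_mem a hu).2, if_true]; exact hχ
        · intro u hu
          rcases hu with hu | hu
          · obtain ⟨p, hp, hup⟩ := h2 u hu
            exact ⟨p + 1, Nat.succ_lt_succ hp, hup⟩
          · exact absurd (Expr.Adj_mem b hu).1 (Finset.disjoint_left.mp hdisj hv1)
        · intro K r hLA q hq hrq
          cases q with
          | zero => exact hLA.1
          | succ q =>
            have hq' : q ≤ R.m := Nat.le_of_succ_le_succ hq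
            have hra : r ∈ a.verts := by
              rw [← e1]; exact R.mem_mono (Nat.zero_le q) hq' hrq
            exact h3 K r (hLA.2.1 hra) q hq' hrq
      · obtain ⟨R, e1, e2, e3, e4, h1, h2, h3⟩ := hrb v hv1
        refine ⟨R.cons (Expr.union a b).verts (Expr.union a b).lab S σ ∅ hv
          (by rw [e1]; exact hmb) (by
            intro u hu w hw h
            rw [e1] at hu hw
            rw [hlabb u hu, hlabb w hw, ← e2]; exact h) (by
            intro u hu
            rw [e1] at hu
            rw [e3, e2, hlabb u hu]) (by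
            intro u hu γ h
            rw [e4]; exact h) hinj (by
            intro r hr γ h1 h2
            rw [e4, h1] at h2; cases h2) (by intro r hr; simp at hr) (by intro r hr; simp at hr)
          (by intro r hr; simp at hr), rfl, rfl, rfl, rfl, ?_, ?_, ?_⟩
        · intro γ hγ
          rcases h1 γ hγ with h | ⟨u, hu, hχ⟩
          · left; rw [hlabb v hv1]; exact h
          · right
            refine ⟨u, Or.inr hu, ?_⟩
            have : u ∉ a.verts := fun h => Finset.disjoint_left.mp hdisj h (Expr.Adj_mem b hu).2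
            simp only [this, if_false]; exact hχ
        · intro u hu
          rcases hu with hu | hu
          · exact absurd hv1 (Finset.disjoint_left.mp hdisj (Expr.Adj_mem a hu).1)
          · obtain ⟨p, hp, hup⟩ := h2 u hu
            exact ⟨p + 1, Nat.succ_lt_succ hp, hup⟩
        · intro K r hLA q hq hrq
          cases q with
          | zero => exact hLA.1
          | succ q =>
            have hq' : q ≤ R.m := Nat.le_of_succ_le_succ hq
            have hrb : r ∈ b.verts := by
              rw [← e1]; exact R.mem_mono (Nat.zero_le q) hq' hrq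
            exact h3 K r (hLA.2.2 hrb) q hq' hrq
  | relabel i j a ih =>
    intro hv S σ hinj
    have hlab : ∀ u, (Expr.relabel i j a).lab u = (if a.lab u = i then j else a.lab u) :=
      fun u => rfl
    obtain ⟨χ, hχ, hr⟩ := ih hv (fun k => S (if k = i then j else k)) σ
      (fun u hu w hw h => hinj u hu w hw (by rw [hlab, hlab, h]))
    refine ⟨χ, hχ, ?_⟩
    intro v hv1
    obtain ⟨R, e1, e2, e3, e4, h1, h2, h3⟩ := hr v hv1
    refine ⟨R.cons (Expr.relabel i j a).verts (Expr.relabel i j a).lab S σ ∅ hv1
      (by rw [e1]; exact fun _ h => h) (by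
        intro u hu w hw h
        rw [e2] at h
        rw [hlab, hlab, h]) (by
        intro u hu
        rw [e3, e2, hlab u]) (by
        intro u hu γ h
        rw [e4]; exact h) hinj (by
        intro r hr γ h1 h2
        rw [e4, h1] at h2; cases h2) (by intro r hr; simp at hr) (by intro r hr; simp at hr)
      (by intro r hr; simp at hr), rfl, rfl, rfl, rfl, ?_, ?_, ?_⟩
    · intro γ hγ
      exact h1 γ hγ
    · intro u hu
      obtain ⟨p, hp, hup⟩ := h2 u hu
      exact ⟨p + 1, Nat.succ_lt_succ hp, hup⟩
    · intro K r hLA q hq hrq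
      cases q with
      | zero => exact hLA.1
      | succ q => exact h3 K r hLA.2 q (Nat.le_of_succ_le_succ hq) hrq
  | join i j a ih =>
    intro hv S σ hinj
    obtain ⟨hva, hij⟩ := hv
    have hinj : ∀ u ∈ a.verts, ∀ w ∈ a.verts, a.lab u = a.lab w →
      ∀ γ, σ u = some γ → σ w = some γ → u = w := hinj
    set Ki := a.verts.filter (fun u => a.lab u = i) with hKi
    set Kj := a.verts.filter (fun u => a.lab u = j) with hKj
    have mi : ∀ u, u ∈ Ki ↔ u ∈ a.verts ∧ a.lab u = i := fun u => by rw [hKi, Finset.mem_filter]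
    have mj : ∀ u, u ∈ Kj ↔ u ∈ a.verts ∧ a.lab u = j := fun u => by rw [hKj, Finset.mem_filter]
    have hdij : ∀ u, u ∈ Ki → u ∉ Kj := by
      intro u h1 h2
      exact hij (((mi u).mp h1).2.symm.trans ((mj u).mp h2).2)
    have hsubi : Ki ⊆ a.verts := Finset.filter_subset _ _
    have hsubj : Kj ⊆ a.verts := Finset.filter_subset _ _
    obtain ⟨σ1, s1, x1, i1, n1, c1⟩ := request2 a hva Ki Kj hsubj (S i) σ
      (fun u hu w hw γ => hinj u (hsubj hu) w (hsubj hw)
        (by rw [((mj u).mp hu).2, ((mj w).mp hw).2]) γ)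
    have hi1' : ∀ u ∈ Ki, ∀ w ∈ Ki, ∀ γ, σ1 u = some γ → σ1 w = some γ → u = w := by
      intro u hu w hw γ h1 h2
      rw [s1 u (hdij u hu)] at h1
      rw [s1 w (hdij w hw)] at h2
      exact hinj u (hsubi hu) w (hsubi hw) (by rw [((mi u).mp hu).2, ((mi w).mp hw).2]) γ h1 h2
    obtain ⟨σ2, s2, x2, i2, n2, c2⟩ := request2 a hva Kj Ki hsubi (S j) σ1 hi1'
    have hx : ∀ u γ, σ u = some γ → σ2 u = some γ := fun u γ h => x2 u γ (x1 u γ h)
    have hdji : ∀ u, u ∈ Kj → u ∉ Ki := fun u h1 h2 => hdij u h2 h1
    have i2j : ∀ u ∈ Kj, ∀ w ∈ Kj, ∀ γ, σ2 u = some γ → σ2 w = some γ → u = w := by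
      intro u hu w hw γ h1 h2
      rw [s2 u (hdji u hu)] at h1
      rw [s2 w (hdji w hw)] at h2
      exact i1 u hu w hw γ h1 h2
    have hinj2 : ∀ u ∈ a.verts, ∀ w ∈ a.verts, a.lab u = a.lab w →
        ∀ γ, σ2 u = some γ → σ2 w = some γ → u = w := by
      intro u hu w hw h γ h1 h2
      by_cases hui : a.lab u = i
      · exact i2 u ((mi u).mpr ⟨hu, hui⟩) w ((mi w).mpr ⟨hw, by rw [← h]; exact hui⟩) γ h1 h2
      by_cases huj : a.lab u = j
      · exact i2j u ((mj u).mpr ⟨hu, huj⟩) w ((mj w).mpr ⟨hw, by rw [← h]; exact huj⟩) γ h1 h2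
      · have hwi : ¬ a.lab w = i := by rw [← h]; exact hui
        have hwj : ¬ a.lab w = j := by rw [← h]; exact huj
        rw [s2 u (fun hh => hui ((mi u).mp hh).2), s1 u (fun hh => huj ((mj u).mp hh).2)] at h1
        rw [s2 w (fun hh => hwi ((mi w).mp hh).2), s1 w (fun hh => hwj ((mj w).mp hh).2)] at h2
        exact hinj u hu w hw h γ h1 h2
    -- the new colours seen
    set cols : Finset V → Finset (Fin c) := fun K =>
      Finset.univ.filter (fun γ => ∃ u ∈ K, σ2 u = some γ) with hcols
    have mcols : ∀ K γ, γ ∈ cols K ↔ ∃ u ∈ K, σ2 u = some γ := by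
      intro K γ; rw [hcols]; simp
    set S' : Fin 3 → Finset (Fin c) := fun k =>
      if k = i then S i ∪ cols Kj else if k = j then S j ∪ cols Ki else S k with hS'
    have S'i : S' i = S i ∪ cols Kj := by simp [hS']
    have S'j : S' j = S j ∪ cols Ki := by simp [hS', hij.symm]
    have hSmono : ∀ k, S k ⊆ S' k := by
      intro k
      by_cases hki : k = i
      · rw [hki, S'i]; exact Finset.subset_union_left
      by_cases hkj : k = j
      · rw [hkj, S'j]; exact Finset.subset_union_left
      · simp [hS', hki, hkj]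
    obtain ⟨χ, hχ, hr⟩ := ih hva S' σ2 hinj2
    refine ⟨χ, fun u hu γ h => hχ u hu γ (hx u γ h), ?_⟩
    intro v hv1
    obtain ⟨R, e1, e2, e3, e4, h1, h2, h3⟩ := hr v hv1
    have hv1' : v ∈ a.verts := hv1
    have hRs : ∀ q ≤ R.m, R.s q ⊆ a.verts := by
      intro q hq
      rw [← e1]; exact R.mem_mono (Nat.zero_le q) hq
    refine ⟨R.cons (Expr.join i j a).verts (Expr.join i j a).lab S σ
      (if a.lab v = i then Kj else if a.lab v = j then Ki else ∅) hv1
      (by rw [e1]; exact fun _ h => h) (by
        intro u hu w hw h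
        rw [e2] at h
        exact h) (by
        intro u hu
        rw [e3, e2]
        exact hSmono _) (by
        intro u hu γ h
        rw [e4]; exact hx u γ h) hinj ?_ ?_ ?_ ?_, rfl, rfl, rfl, rfl, ?_, ?_, ?_⟩
    · -- new
      intro r hr γ g1 g2
      rw [e1] at hr
      rw [e4] at g2
      by_cases hri : r ∈ Ki
      · have hr1 : σ1 r = none := by rw [s1 r (hdij r hri)]; exact g1
        obtain ⟨⟨u0, hu0⟩, hγ, hLA⟩ := n2 r hri γ hr1 g2
        refine ⟨⟨u0, hsubj hu0, ?_, ?_, ?_⟩, ?_⟩
        · show a.lab u0 ≠ a.lab r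
          rw [((mj u0).mp hu0).2, ((mi r).mp hri).2]; exact hij.symm
        · show γ ∉ S (a.lab u0)
          rw [((mj u0).mp hu0).2]; exact hγ
        · intro u hu hl
          have hl : a.lab u = a.lab u0 := hl
          rw [e3, e2, hl, ((mj u0).mp hu0).2, S'j]
          exact Finset.mem_union_right _ ((mcols _ _).mpr ⟨r, hri, g2⟩)
        · intro q hq hrq
          rcases h3 Ki r hLA q hq hrq with h | h
          · exact Or.inl h
          · right
            refine le_trans (Finset.card_le_card ?_) h
            intro u hu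
            rw [Finset.mem_filter] at hu
            rw [Finset.mem_inter]
            refine ⟨hu.1, (mi u).mpr ⟨hRs q hq hu.1, ?_⟩⟩
            have : a.lab u = a.lab r := hu.2
            rw [this]; exact ((mi r).mp hri).2
      · have hr2 : σ1 r = some γ := by rw [← s2 r hri]; exact g2
        by_cases hrj : r ∈ Kj
        · obtain ⟨⟨u0, hu0⟩, hγ, hLA⟩ := n1 r hrj γ g1 hr2
          refine ⟨⟨u0, hsubi hu0, ?_, ?_, ?_⟩, ?_⟩
          · show a.lab u0 ≠ a.lab r
            rw [((mi u0).mp hu0).2, ((mj r).mp hrj).2]; exact hij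
          · show γ ∉ S (a.lab u0)
            rw [((mi u0).mp hu0).2]; exact hγ
          · intro u hu hl
            have hl : a.lab u = a.lab u0 := hl
            rw [e3, e2, hl, ((mi u0).mp hu0).2, S'i]
            exact Finset.mem_union_right _ ((mcols _ _).mpr ⟨r, hrj, g2⟩)
          · intro q hq hrq
            rcases h3 Kj r hLA q hq hrq with h | h
            · exact Or.inl h
            · right
              refine le_trans (Finset.card_le_card ?_) h
              intro u hu
              rw [Finset.mem_filter] at hu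
              rw [Finset.mem_inter]
              refine ⟨hu.1, (mj u).mpr ⟨hRs q hq hu.1, ?_⟩⟩
              have : a.lab u = a.lab r := hu.2
              rw [this]; exact ((mj r).mp hrj).2
        · rw [s1 r hrj, g1] at hr2; cases hr2
    · -- seen_spec
      intro r hr
      by_cases hvi : a.lab v = i
      · simp only [hvi, if_true] at hr
        refine ⟨by rw [e1]; exact hsubj hr, ?_⟩
        rw [e3, e2, hvi, e1, e4, S'i]
        rcases c1 ⟨v, (mi v).mpr ⟨hv1', hvi⟩⟩ with hc1 | hc1
        · right
          have hne : ∀ u ∈ Kj, σ2 u ≠ none := by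
            intro u hu
            rw [s2 u (hdji u hu)]; exact hc1 u hu
          refine ⟨?_, ?_⟩
          · obtain ⟨γ, hγ⟩ := Option.ne_none_iff_exists'.mp (hne r hr)
            exact ⟨γ, hγ, Finset.mem_union_right _ ((mcols _ _).mpr ⟨r, hr, hγ⟩)⟩
          · have hfe : a.verts.filter (fun u => a.lab u = a.lab r) = Kj := by
              rw [((mj r).mp hr).2]
            rw [hfe]
            exact colored_le i2j Kj (fun _ h => h) hne
        · left
          ext γ
          simp only [Finset.mem_univ, iff_true]
          rcases hc1 γ with h | ⟨u, hu, h⟩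
          · exact Finset.mem_union_left _ h
          · exact Finset.mem_union_right _ ((mcols _ _).mpr ⟨u, hu, x2 u γ h⟩)
      · by_cases hvj : a.lab v = j
        · simp only [hvi, hvj, if_true, if_false, hij.symm] at hr
          refine ⟨by rw [e1]; exact hsubi hr, ?_⟩
          rw [e3, e2, hvj, e1, e4, S'j]
          rcases c2 ⟨v, (mj v).mpr ⟨hv1', hvj⟩⟩ with hc2 | hc2
          · right
            refine ⟨?_, ?_⟩
            · obtain ⟨γ, hγ⟩ := Option.ne_none_iff_exists'.mp (hc2 r hr)
              exact ⟨γ, hγ, Finset.mem_union_right _ ((mcols _ _).mpr ⟨r, hr, hγ⟩)⟩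
            · have hfe : a.verts.filter (fun u => a.lab u = a.lab r) = Ki := by
                rw [((mi r).mp hr).2]
              rw [hfe]
              exact colored_le i2 Ki (fun _ h => h) hc2
          · left
            ext γ
            simp only [Finset.mem_univ, iff_true]
            rcases hc2 γ with h | ⟨u, hu, h⟩
            · exact Finset.mem_union_left _ h
            · exact Finset.mem_union_right _ ((mcols _ _).mpr ⟨u, hu, h⟩)
        · simp only [hvi, hvj, if_false] at hr
          simp at hr
    · -- seen_class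
      intro r hr r' hr'
      rw [e2]
      by_cases hvi : a.lab v = i
      · simp only [hvi, if_true] at hr hr'
        rw [((mj r).mp hr).2, ((mj r').mp hr').2]
      · by_cases hvj : a.lab v = j
        · simp only [hvi, hvj, if_true, if_false, hij.symm] at hr hr'
          rw [((mi r).mp hr).2, ((mi r').mp hr').2]
        · simp only [hvi, hvj, if_false] at hr
          simp at hr
    · -- seen_new
      intro r hr γ g1 g2
      rw [e4] at g2
      show γ ∉ S (a.lab v)
      by_cases hvi : a.lab v = i
      · simp only [hvi, if_true] at hr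
        have hr2 : σ1 r = some γ := by rw [← s2 r (hdji r hr)]; exact g2
        rw [hvi]
        exact (n1 r hr γ g1 hr2).2.1
      · by_cases hvj : a.lab v = j
        · simp only [hvi, hvj, if_true, if_false, hij.symm] at hr
          have hr1 : σ1 r = none := by rw [s1 r (hdij r hr)]; exact g1
          rw [hvj]
          exact (n2 r hr γ hr1 g2).2.1
        · simp only [hvi, hvj, if_false] at hr
          simp at hr
    · -- colours seen
      intro γ hγ
      rcases h1 γ hγ with h | ⟨u, hu, hχu⟩
      · show γ ∈ S (a.lab v) ∨ _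
        by_cases hvi : a.lab v = i
        · rw [hvi, S'i, Finset.mem_union, mcols] at h
          rcases h with h | ⟨u, hu, hs⟩
          · left; rw [hvi]; exact h
          · right
            refine ⟨u, Or.inr ⟨hv1', hsubj hu, Or.inl ⟨hvi, ((mj u).mp hu).2⟩⟩, ?_⟩
            exact hχ u (hsubj hu) γ hs
        by_cases hvj : a.lab v = j
        · rw [hvj, S'j, Finset.mem_union, mcols] at h
          rcases h with h | ⟨u, hu, hs⟩
          · left; rw [hvj]; exact h
          · right
            refine ⟨u, Or.inr ⟨hv1', hsubi hu, Or.inr ⟨hvj, ((mi u).mp hu).2⟩⟩, ?_⟩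
            exact hχ u (hsubi hu) γ hs
        · left
          simpa [hS', hvi, hvj] using h
      · right
        exact ⟨u, Or.inl hu, hχu⟩
    · -- neighbours are seen
      intro u hu
      rcases hu with hu | ⟨_, hua, hu | hu⟩
      · obtain ⟨p, hp, hup⟩ := h2 u hu
        exact ⟨p + 1, Nat.succ_lt_succ hp, hup⟩
      · refine ⟨0, Nat.succ_pos _, ?_⟩
        show u ∈ (if a.lab v = i then Kj else if a.lab v = j then Ki else ∅)
        rw [if_pos hu.1]
        exact (mj u).mpr ⟨hua, hu.2⟩
      · refine ⟨0, Nat.succ_pos _, ?_⟩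
        show u ∈ (if a.lab v = i then Kj else if a.lab v = j then Ki else ∅)
        rw [if_neg (by rw [hu.1]; exact hij.symm), if_pos hu.1]
        exact (mi u).mpr ⟨hua, hu.2⟩
    · intro K r hLA q hq hrq
      cases q with
      | zero => exact hLA.1
      | succ q => exact h3 K r hLA.2 q (Nat.le_of_succ_le_succ hq) hrq

end H115D
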