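import Mathlib
import Pool.Agent.H115D.Solve

/-!
# Graphs of clique-width at most three are DOM-bounded
-/

namespace H115D

open Finset

theorem Expr.verts_nonempty {k : ℕ} {V : Type} [DecidableEq V] :
    ∀ e : Expr k V, e.verts.Nonempty := by
  intro e
  induction e with
  | vertex v i => exact ⟨v, Finset.mem_singleton_self v⟩
  | union a b iha ihb =>
    obtain ⟨v, hv⟩ := iha
    exact ⟨v, Finset.mem_union_left _ hv⟩
  | relabel i j a iha => exact iha
  | join i j a iha => exact iha

theorem domaticPartition_le_card {V : Type} [Fintype V] [Nonempty V] (G : SimpleGraph V) {n : ℕ}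
    (h : DomaticPartition G n) : n ≤ Fintype.card V := by
  obtain ⟨f, hf⟩ := h
  have hsurj : Function.Surjective f := by
    intro i
    obtain ⟨u, hu, _⟩ := hf i (Classical.arbitrary V)
    exact ⟨u, hu⟩
  simpa using Fintype.card_le_of_surjective f hsurj

theorem domatic_three {c : ℕ} (hc : 0 < c) {V : Type} [Fintype V] [DecidableEq V]
    (G : SimpleGraph V) [DecidableRel G.Adj] (h : CliqueWidthLE 3 G)
    (hd : 13 * c + 15 * c * (c + 1) < G.minDegree) : DomaticPartition G c := by
  obtain ⟨e, hv, hverts, hadj⟩ := h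
  obtain ⟨χ, _, hχ⟩ := solve hc e hv (fun _ => ∅) (fun _ => none)
    (fun u _ w _ _ γ h => by cases h)
  refine ⟨χ, fun i v => ?_⟩
  obtain ⟨R, h0, hl, hS, hσ, hcol, hseen, _⟩ := hχ v (by rw [hverts]; exact Finset.mem_univ v)
  by_cases hend : R.S R.m (R.lab R.m v) = univ
  · rcases hcol i (by rw [hend]; exact Finset.mem_univ i) with h | ⟨u, hu, hui⟩
    · exact absurd h (Finset.notMem_empty _)
    · exact ⟨u, hui, Or.inr ((hadj v u).mpr hu).symm⟩
  · exfalso
    have hcount := R.count (fun u _ => by rw [hσ]) hend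
    have hsub : G.neighborFinset v ⊆ (Finset.range R.m).biUnion R.seen := by
      intro u hu
      rw [SimpleGraph.mem_neighborFinset] at hu
      obtain ⟨p, hp, hup⟩ := hseen u ((hadj v u).mp hu)
      exact Finset.mem_biUnion.mpr ⟨p, Finset.mem_range.mpr hp, hup⟩
    have h1 := Finset.card_le_card hsub
    have h2 := G.minDegree_le_degree v
    rw [SimpleGraph.card_neighborFinset_eq_degree] at h1
    omega

theorem domBounded_three : DOMBounded (fun V _ _ G => CliqueWidthLE 3 G) := by
  intro c
  refine ⟨13 * (c + 1) + 15 * (c + 1) * (c + 1 + 1) + 1, fun V _ _ G _ h hd => ?_⟩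
  have hne : Nonempty V := by
    obtain ⟨e, _, _, _⟩ := h
    obtain ⟨v, _⟩ := e.verts_nonempty
    exact ⟨v⟩
  have hp : DomaticPartition G (c + 1) := domatic_three (c := c + 1) (Nat.succ_pos c) G h (by omega)
  have hb : BddAbove {n | DomaticPartition G n} :=
    ⟨Fintype.card V, fun n hn => domaticPartition_le_card G hn⟩
  exact Nat.lt_of_succ_le (le_csSup hb hp)

end H115D
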